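import Pool.Agent.TH941.LogD

/-! The local factors of the Rankin-Selberg series of two eigenforms. -/

set_option autoImplicit false

namespace Pool.Agent.Y722.RS

open Filter Topology
open Pool.Agent.TH941 (KK summable_aux KK_nonneg)

/-- normalised coefficients at the powers of a prime -/
structure Loc (c : ℕ → ℝ) (t e : ℝ) : Prop where
  zero : c 0 = 1
  one : c 1 = t
  step : ∀ k, c (k + 2) = t * c (k + 1) - e * c k
  le : ∀ k : ℕ, |c k| ≤ k + 1
  e0 : 0 ≤ e
  e1 : e ≤ 1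

/-- shifted sums -/
noncomputable def S (c d : ℕ → ℝ) (x : ℝ) (j : ℕ) : ℝ := ∑' k : ℕ, c (k + j) * d (k + j) * x ^ k

variable {c d : ℕ → ℝ} {t e t' e' x : ℝ}

theorem Loc.t_le (h : Loc c t e) : |t| ≤ 2 := by
  have := h.le 1
  rw [h.one] at this
  norm_num at this
  exact this

theorem S_bound (h : Loc c t e) (h' : Loc d t' e') (hx : 0 ≤ x) (hx2 : x ≤ 1 / 2) (j k : ℕ) :
    ‖c (k + j) * d (k + j) * x ^ k‖ ≤ ((k : ℝ) + (j + 1 : ℕ)) ^ 2 * (1 / 2 : ℝ) ^ k := by
  rw [norm_mul, norm_mul, Real.norm_eq_abs, Real.norm_eq_abs, Real.norm_eq_abs,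
    abs_of_nonneg (pow_nonneg hx k)]
  have h1 := h.le (k + j)
  have h2 := h'.le (k + j)
  push_cast at h1 h2 ⊢
  have h3 : |c (k + j)| * |d (k + j)| ≤ ((k : ℝ) + (j + 1)) ^ 2 := by
    rw [sq, ← add_assoc]
    exact mul_le_mul h1 h2 (abs_nonneg _) (by positivity)
  exact mul_le_mul h3 (pow_le_pow_left₀ hx hx2 k) (by positivity) (by positivity)

theorem S_summable (h : Loc c t e) (h' : Loc d t' e') (hx : 0 ≤ x) (hx2 : x ≤ 1 / 2) (j : ℕ) :
    Summable fun k : ℕ => c (k + j) * d (k + j) * x ^ k :=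
  Summable.of_norm_bounded (summable_aux (j + 1)) (S_bound h h' hx hx2 j)

theorem S_step (h : Loc c t e) (h' : Loc d t' e') (hx : 0 ≤ x) (hx2 : x ≤ 1 / 2) (j : ℕ) :
    S c d x j = c j * d j + x * S c d x (j + 1) := by
  unfold S
  rw [(S_summable h h' hx hx2 j).tsum_eq_zero_add, ← tsum_mul_left]
  congr 1
  · simp
  · refine tsum_congr fun k => ?_
    rw [show k + 1 + j = k + (j + 1) by ring]
    ring

theorem S_rec (h : Loc c t e) (h' : Loc d t' e') (hx : 0 ≤ x) (hx2 : x ≤ 1 / 2) :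
    S c d x 4 = t * t' * S c d x 3 - (e' * t ^ 2 + e * t' ^ 2 - 2 * e * e') * S c d x 2 +
      e * e' * t * t' * S c d x 1 - e ^ 2 * e' ^ 2 * S c d x 0 := by
  have hs := S_summable h h' hx hx2
  unfold S
  rw [← tsum_mul_left, ← tsum_mul_left, ← tsum_mul_left, ← tsum_mul_left,
    ← ((hs 3).mul_left _).tsum_sub ((hs 2).mul_left _),
    ← (((hs 3).mul_left _).sub ((hs 2).mul_left _)).tsum_add ((hs 1).mul_left _),
    ← ((((hs 3).mul_left _).sub ((hs 2).mul_left _)).add ((hs 1).mul_left _)).tsum_sub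
      ((hs 0).mul_left _)]
  refine tsum_congr fun k => ?_
  have a2 := h.step k
  have a3 := h.step (k + 1)
  have a4 := h.step (k + 2)
  have b2 := h'.step k
  have b3 := h'.step (k + 1)
  have b4 := h'.step (k + 2)
  rw [show k + 1 + 2 = k + 3 by ring, show k + 1 + 1 = k + 2 by ring] at a3 b3
  rw [show k + 2 + 2 = k + 4 by ring, show k + 2 + 1 = k + 3 by ring] at a4 b4
  rw [a4, a3, a2, b4, b3, b2, add_zero]
  ring

/-- **Closed form.** -/
theorem S_closed (h : Loc c t e) (h' : Loc d t' e') (hx : 0 ≤ x) (hx2 : x ≤ 1 / 2) :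
    (1 - t * t' * x + (e' * t ^ 2 + e * t' ^ 2 - 2 * e * e') * x ^ 2 - e * e' * t * t' * x ^ 3 +
      e ^ 2 * e' ^ 2 * x ^ 4) * S c d x 0 = 1 - e * e' * x ^ 2 := by
  have h0 := S_step h h' hx hx2 0
  have h1 := S_step h h' hx hx2 1
  have h2 := S_step h h' hx hx2 2
  have h3 := S_step h h' hx hx2 3
  have h4 := S_rec h h' hx hx2
  have c2 := h.step 0
  have c3 := h.step 1
  have d2 := h'.step 0
  have d3 := h'.step 1
  norm_num at h0 h1 h2 h3 c2 c3 d2 d3
  rw [h.zero, h'.zero] at h0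
  rw [h.one, h'.one] at h1
  rw [h.zero, h.one] at c2
  rw [h'.zero, h'.one] at d2
  rw [c2, h.one] at c3
  rw [d2, h'.one] at d3
  rw [c2, d2] at h2
  rw [c3, d3] at h3
  rw [h4] at h3
  set A := S c d x 0
  set B := S c d x 1
  set C := S c d x 2
  set D := S c d x 3
  linear_combination (1 - t * t' * x + (e' * t ^ 2 + e * t' ^ 2 - 2 * e * e') * x ^ 2 -
      e * e' * t * t' * x ^ 3) * h0 + (x - t * t' * x ^ 2 +
      (e' * t ^ 2 + e * t' ^ 2 - 2 * e * e') * x ^ 3) * h1 + (x ^ 2 - t * t' * x ^ 3) * h2 +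
      x ^ 3 * h3

theorem S_lower (h : Loc c t e) (h' : Loc d t' e') (hx : 0 ≤ x) (hx2 : x ≤ 1 / 2) :
    1 / 20 ≤ |S c d x 0| := by
  have h1 := S_closed h h' hx hx2
  have ht := h.t_le
  have ht' := h'.t_le
  have he0 := h.e0
  have he1 := h.e1
  have he0' := h'.e0
  have he1' := h'.e1
  have htt : |t * t'| ≤ 4 := by
    rw [abs_mul]
    calc |t| * |t'| ≤ 2 * 2 := mul_le_mul ht ht' (abs_nonneg _) (by norm_num)
      _ = 4 := by norm_num
  have hee0 : 0 ≤ e * e' := mul_nonneg he0 he0'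
  have hee1 : e * e' ≤ 1 := mul_le_one₀ he1 he0' he1'
  have hx4 : x ^ 2 ≤ 1 / 4 := by nlinarith
  have hx3 : x ^ 3 ≤ 1 / 8 := by nlinarith [sq_nonneg x]
  have hx44 : x ^ 4 ≤ 1 / 16 := by nlinarith [sq_nonneg x]
  have hr : 3 / 4 ≤ 1 - e * e' * x ^ 2 := by nlinarith [sq_nonneg x]
  have hP : |1 - t * t' * x + (e' * t ^ 2 + e * t' ^ 2 - 2 * e * e') * x ^ 2 -
      e * e' * t * t' * x ^ 3 + e ^ 2 * e' ^ 2 * x ^ 4| ≤ 15 := by
    have a1 : |t * t' * x| ≤ 2 := by
      rw [abs_mul, abs_of_nonneg hx]; nlinarith [abs_nonneg (t * t')]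
    have t2 : t ^ 2 ≤ 4 := by rw [← sq_abs]; nlinarith [abs_nonneg t]
    have t2' : t' ^ 2 ≤ 4 := by rw [← sq_abs]; nlinarith [abs_nonneg t']
    have a2 : |(e' * t ^ 2 + e * t' ^ 2 - 2 * e * e') * x ^ 2| ≤ 10 * (1 / 4) := by
      rw [abs_mul, abs_of_nonneg (sq_nonneg x)]
      refine mul_le_mul ?_ hx4 (sq_nonneg x) (by norm_num)
      have q1 : 0 ≤ e' * t ^ 2 := by positivity
      have q2 : 0 ≤ e * t' ^ 2 := by positivity
      have q3 : e' * t ^ 2 ≤ 4 := by nlinarith [sq_nonneg t]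
      have q4 : e * t' ^ 2 ≤ 4 := by nlinarith [sq_nonneg t']
      rw [abs_le]
      constructor <;> nlinarith
    have a3 : |e * e' * t * t' * x ^ 3| ≤ 4 * (1 / 8) := by
      have : e * e' * t * t' * x ^ 3 = (e * e') * ((t * t') * x ^ 3) := by ring
      rw [this, abs_mul, abs_of_nonneg hee0, abs_mul, abs_of_nonneg (pow_nonneg hx 3)]
      have q1 : |t * t'| * x ^ 3 ≤ 4 * (1 / 8) :=
        mul_le_mul htt hx3 (pow_nonneg hx 3) (by norm_num)
      have q2 : 0 ≤ |t * t'| * x ^ 3 := by positivity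
      nlinarith
    have a4 : |e ^ 2 * e' ^ 2 * x ^ 4| ≤ 1 := by
      rw [abs_of_nonneg (by positivity), ← mul_pow]
      have q1 : (e * e') ^ 2 ≤ 1 := by nlinarith
      have q2 : 0 ≤ (e * e') ^ 2 := by positivity
      nlinarith [pow_nonneg hx 4]
    rw [abs_le] at *
    constructor <;> linarith [a1.1, a1.2, a2.1, a2.2, a3.1, a3.2, a4.1, a4.2]
  have h2 := congrArg abs h1
  rw [abs_mul, abs_of_nonneg (by linarith : (0 : ℝ) ≤ 1 - e * e' * x ^ 2)] at h2
  have h3 : 3 / 4 ≤ 15 * |S c d x 0| := by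
    calc 3 / 4 ≤ 1 - e * e' * x ^ 2 := hr
      _ = _ := h2.symm
      _ ≤ 15 * |S c d x 0| := mul_le_mul_of_nonneg_right hP (abs_nonneg _)
  linarith

/-- the constant -/
noncomputable def KC : ℝ := KK + 2 * (4 + KK) ^ 2 + (2 + Real.log 20) * (8 + 2 * KK) ^ 2

theorem log20 : 0 ≤ Real.log 20 := Real.log_nonneg (by norm_num)

theorem KC_nonneg : 0 ≤ KC := by
  unfold KC
  have := KK_nonneg
  have := log20
  positivity

/-- **Lower bound for the logarithm of a local factor.** -/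
theorem log_lower (h : Loc c t e) (h' : Loc d t' e') (hx : 0 ≤ x) (hx2 : x ≤ 1 / 2) :
    t * t' * x - KC * x ^ 2 ≤ Real.log |S c d x 0| := by
  have hK := KK_nonneg
  have hL := log20
  have h0 := S_step h h' hx hx2 0
  have h1 := S_step h h' hx hx2 1
  norm_num at h0 h1
  rw [h.zero, h'.zero] at h0
  rw [h.one, h'.one] at h1
  have h2 : |S c d x 2| ≤ KK := by
    have hb := tsum_of_norm_bounded (summable_aux 3).hasSum (S_bound h h' hx hx2 2)
    rw [Real.norm_eq_abs] at hb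
    refine hb.trans (le_of_eq ?_)
    unfold KK
    norm_num
  have htt : |t * t'| ≤ 4 := by
    rw [abs_mul]
    calc |t| * |t'| ≤ 2 * 2 := mul_le_mul h.t_le h'.t_le (abs_nonneg _) (by norm_num)
      _ = 4 := by norm_num
  set y : ℝ := t * t' * x + x ^ 2 * S c d x 2 with hy
  have hS : S c d x 0 = 1 + y := by rw [h0, h1, hy]; ring
  have hx2' : x ^ 2 ≤ x / 2 := by nlinarith
  have hyb : |y| ≤ (4 + KK) * x := by
    rw [hy]
    refine (abs_add_le _ _).trans ?_
    rw [abs_mul (t * t') x, abs_mul (x ^ 2), abs_of_nonneg hx, abs_of_nonneg (sq_nonneg x)]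
    have q1 : |t * t'| * x ≤ 4 * x := mul_le_mul_of_nonneg_right htt hx
    have q2 : x ^ 2 * |S c d x 2| ≤ x * KK :=
      mul_le_mul (by linarith) h2 (abs_nonneg _) hx
    linarith
  have hx20 : 0 ≤ x ^ 2 := sq_nonneg x
  by_cases hc : |y| ≤ 1 / 2
  · -- the small case
    have hpos : 1 / 2 ≤ 1 + y := by have := (abs_le.1 hc).1; linarith
    rw [hS, abs_of_pos (by linarith)]
    have h3 : 1 - (1 + y)⁻¹ ≤ Real.log (1 + y) := Real.one_sub_inv_le_log_of_pos (by linarith)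
    have h4 : y - 2 * y ^ 2 ≤ 1 - (1 + y)⁻¹ := by
      have e1 : 1 - (1 + y)⁻¹ = y / (1 + y) := by
        field_simp
        ring
      rw [e1, le_div_iff₀ (by linarith)]
      nlinarith [sq_nonneg y]
    have h5 : y ^ 2 ≤ ((4 + KK) * x) ^ 2 := by
      rw [← sq_abs]
      exact pow_le_pow_left₀ (abs_nonneg _) hyb 2
    have h6 : t * t' * x - KK * x ^ 2 ≤ y := by
      rw [hy]
      have := (abs_le.1 h2).1
      nlinarith
    have h7 : 0 ≤ (2 + Real.log 20) * (8 + 2 * KK) ^ 2 * x ^ 2 := by positivity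
    unfold KC
    nlinarith
  · -- the large case
    push Not at hc
    have h3 : 1 ≤ (8 + 2 * KK) * x := by linarith
    have h4 : 1 ≤ (8 + 2 * KK) ^ 2 * x ^ 2 := by
      rw [← mul_pow]
      exact one_le_pow₀ h3
    have h5 := S_lower h h' hx hx2
    have h6 : -Real.log 20 ≤ Real.log |S c d x 0| := by
      rw [← Real.log_inv]
      refine Real.log_le_log (by norm_num) ?_
      norm_num
      linarith
    have h7 : t * t' * x ≤ 2 := by
      have := (abs_le.1 htt).2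
      nlinarith
    have h8 : 2 + Real.log 20 ≤ (2 + Real.log 20) * ((8 + 2 * KK) ^ 2 * x ^ 2) :=
      le_mul_of_one_le_right (by linarith) h4
    have h9 : 0 ≤ (KK + 2 * (4 + KK) ^ 2) * x ^ 2 := by positivity
    unfold KC
    nlinarith

end Pool.Agent.Y722.RS
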