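import Pool.Agent.Y722.RS.Dbdd
import Pool.Agent.Y722.RS.Local
import Pool.Agent.W353.TP.Hom

/-! The Euler product of the Rankin-Selberg series; one-sided orthogonality. -/

set_option autoImplicit false

namespace Pool.Agent.Y722.RS

open Filter Topology UpperHalfPlane CongruenceSubgroup Complex
open scoped MatrixGroups ModularForm
open Pool.Agent.W165.RS (ac ac_zero)
open Pool.Agent.TH941 (gg gg_nonneg rs_form Hecke rpow_half)
open Pool.Agent.H341R2 (E lam)

/-- the normalised eigenvalue -/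
noncomputable def tt {M : ℕ} (f : S2 M) (p : ℕ) : ℝ := rc f p / Real.sqrt p

section
variable {M : ℕ} [NeZero M] {f : S2 M}

open Classical in
/-- the local coefficients -/
theorem loc_of (hf : Hecke f) {p : ℕ} (hp : p.Prime) :
    Loc (fun k => rc f (p ^ k) / Real.sqrt p ^ k) (tt f p) (if p ∣ M then 0 else 1) := by
  have hp0 : (0 : ℝ) < p := by exact_mod_cast hp.pos
  have hs0 : 0 < Real.sqrt p := Real.sqrt_pos.2 hp0
  have hs2 : Real.sqrt p ^ 2 = p := Real.sq_sqrt hp0.le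
  refine ⟨?_, ?_, ?_, ?_, ?_, ?_⟩
  · simp [rc_one hf]
  · simp [tt]
  · intro k
    rw [rc_pow hf hp]
    unfold tt
    split_ifs with h
    · rw [sub_zero, zero_mul, sub_zero, div_mul_div_comm, ← pow_succ']
    · rw [sub_div, div_mul_div_comm, ← pow_succ', one_mul]
      congr 1
      rw [show k + 1 + 1 = k + 2 by ring, pow_add, hs2]
      field_simp
  · intro k
    have hk : 0 < Real.sqrt p ^ k := pow_pos hs0 k
    rw [abs_div, abs_of_pos hk, div_le_iff₀ hk]
    have h1 : |rc f (p ^ k)| = ‖ac f (p ^ k)‖ := by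
      rw [rc_eq hf.real, Complex.norm_real, Real.norm_eq_abs]
    rw [h1]
    by_cases h : p ∣ M
    · have h2 := hf.prime_pow_bad hp h k
      have h3 : (1 : ℝ) ≤ Real.sqrt p ^ k :=
        one_le_pow₀ (Real.one_le_sqrt.2 (by exact_mod_cast hp.one_le))
      have h4 : (1 : ℝ) ≤ (k : ℝ) + 1 := by
        have : (0 : ℝ) ≤ k := Nat.cast_nonneg k
        linarith
      nlinarith
    · exact hf.prime_pow hp h k
  · split_ifs <;> norm_num
  · split_ifs <;> norm_num

end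

section
variable {M₁ M₂ : ℕ} [NeZero M₁] [NeZero M₂] {f : S2 M₁} {g : S2 M₂}

/-- the local factor -/
noncomputable def LF (f : S2 M₁) (g : S2 M₂) (s : ℝ) (p : ℕ) : ℝ :=
  S (fun k => rc f (p ^ k) / Real.sqrt p ^ k) (fun k => rc g (p ^ k) / Real.sqrt p ^ k)
    ((p : ℝ) ^ (-s)) 0

theorem hasProd_CR (hf : Hecke f) (hg : Hecke g) {s : ℝ} (hs : 1 < s) :
    HasProd (fun p : Nat.Primes => LF f g s p) (CR (rc f) (rc g) s) := by
  have sf := Sm_rc hf.real (Sm_of hf s hs)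
  have sg := Sm_rc hg.real (Sm_of hg s hs)
  have hsum := CR_summable sf sg
  have h1 : rc f 1 * rc g 1 / ((1 : ℕ) : ℝ) * ((1 : ℕ) : ℝ) ^ (-s) = 1 := by
    rw [rc_one hf, rc_one hg]; simp
  have hmul : ∀ {m n : ℕ}, Nat.Coprime m n →
      rc f (m * n) * rc g (m * n) / ((m * n : ℕ) : ℝ) * ((m * n : ℕ) : ℝ) ^ (-s) =
      rc f m * rc g m / (m : ℝ) * (m : ℝ) ^ (-s) * (rc f n * rc g n / (n : ℝ) * (n : ℝ) ^ (-s)) := by
    intro m n h
    rw [rc_mul hf h, rc_mul hg h, Nat.cast_mul, Real.mul_rpow (Nat.cast_nonneg _)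
      (Nat.cast_nonneg _)]
    rw [show rc f m * rc f n * (rc g m * rc g n) = (rc f m * rc g m) * (rc f n * rc g n) by ring,
      mul_div_mul_comm]
    ring
  have h := EulerProduct.eulerProduct_hasProd
    (f := fun n : ℕ => rc f n * rc g n / (n : ℝ) * (n : ℝ) ^ (-s)) h1 hmul hsum (by
      rw [rc_zero]; simp)
  refine h.congr_fun fun p => ?_
  unfold LF S
  refine tsum_congr fun k => ?_
  have hp0 : (0 : ℝ) < (p : ℕ) := by exact_mod_cast p.2.pos
  have hs0 : 0 < Real.sqrt (p : ℕ) := Real.sqrt_pos.2 hp0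
  have hs2 : Real.sqrt (p : ℕ) ^ k * Real.sqrt (p : ℕ) ^ k = ((p : ℕ) : ℝ) ^ k := by
    rw [← mul_pow, Real.mul_self_sqrt hp0.le]
  simp only [add_zero]
  rw [div_mul_div_comm, hs2]
  push_cast
  rw [← Real.rpow_natCast ((p : ℕ) : ℝ) k, ← Real.rpow_mul hp0.le,
    ← Real.rpow_natCast (((p : ℕ) : ℝ) ^ (-s)) k, ← Real.rpow_mul hp0.le]
  congr 2
  ring

theorem LF_lower (hf : Hecke f) (hg : Hecke g) {s : ℝ} (hs : 1 < s) (p : Nat.Primes) :
    0 < |LF f g s p| ∧ tt f p * tt g p * ((p : ℕ) : ℝ) ^ (-s) -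
      KC * (((p : ℕ) : ℝ) ^ (-s)) ^ 2 ≤ Real.log |LF f g s p| := by
  classical
  obtain ⟨h0, h1, _⟩ := rpow_half p.2 hs.le
  have a := loc_of hf p.2
  have b := loc_of hg p.2
  exact ⟨lt_of_lt_of_le (by norm_num) (S_lower a b h0 h1), log_lower a b h0 h1⟩

theorem tt_le (hf : Hecke f) {p : ℕ} (hp : p.Prime) : |tt f p| ≤ 2 := by
  classical
  exact (loc_of hf hp).t_le

/-- the constant from the prime powers -/
noncomputable def K2 : ℝ := KC * ∑' p : Nat.Primes, ((p : ℕ) : ℝ) ^ (-2 : ℝ)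

/-- **Lower bound for the Rankin-Selberg series.** -/
theorem E_le_log (hf : Hecke f) (hg : Hecke g) {ε : ℝ} (hε : 0 < ε) :
    (E ε fun p : Nat.Primes => tt f p * tt g p) ≤
      Real.log |CR (rc f) (rc g) (1 + ε)| + K2 := by
  have hs : 1 < 1 + ε := by linarith
  have hP := hasProd_CR hf hg hs
  have hsum1 : Summable fun p : Nat.Primes => tt f p * tt g p * ((p : ℕ) : ℝ) ^ (-(1 + ε)) := by
    refine Summable.of_norm_bounded ((Nat.Primes.summable_rpow.2
      (by linarith : -(1 + ε) < -1)).mul_left 4) fun p => ?_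
    rw [norm_mul, norm_mul, Real.norm_eq_abs, Real.norm_eq_abs, Real.norm_eq_abs,
      abs_of_nonneg (by positivity : 0 ≤ ((p : ℕ) : ℝ) ^ (-(1 + ε)))]
    refine mul_le_mul_of_nonneg_right ?_ (by positivity)
    calc |tt f p| * |tt g p| ≤ 2 * 2 :=
          mul_le_mul (tt_le hf p.2) (tt_le hg p.2) (abs_nonneg _) (by norm_num)
      _ = 4 := by norm_num
  have hs2 : Summable fun p : Nat.Primes => ((p : ℕ) : ℝ) ^ (-2 : ℝ) :=
    Nat.Primes.summable_rpow.2 (by norm_num)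
  have hle2 : ∀ p : Nat.Primes, (((p : ℕ) : ℝ) ^ (-(1 + ε))) ^ 2 ≤ ((p : ℕ) : ℝ) ^ (-2 : ℝ) := by
    intro p
    have hp1 : (1 : ℝ) ≤ (p : ℕ) := by exact_mod_cast p.2.one_le
    rw [← Real.rpow_natCast, ← Real.rpow_mul (by positivity)]
    refine Real.rpow_le_rpow_of_exponent_le hp1 ?_
    push_cast
    linarith
  have hsum2 : Summable fun p : Nat.Primes => (((p : ℕ) : ℝ) ^ (-(1 + ε))) ^ 2 :=
    Summable.of_nonneg_of_le (fun p => by positivity) hle2 hs2
  have hsum3 := hsum1.sub (hsum2.mul_left KC)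
  -- the inequality for finite products
  have hfin : ∀ T : Finset Nat.Primes, Real.exp (∑ p ∈ T, (tt f p * tt g p *
      ((p : ℕ) : ℝ) ^ (-(1 + ε)) - KC * (((p : ℕ) : ℝ) ^ (-(1 + ε))) ^ 2)) ≤
      |∏ p ∈ T, LF f g (1 + ε) p| := by
    intro T
    rw [Finset.abs_prod, Real.exp_sum]
    refine Finset.prod_le_prod (fun p _ => (Real.exp_pos _).le) fun p _ => ?_
    obtain ⟨h1, h2⟩ := LF_lower hf hg hs p
    rw [← Real.exp_log h1]
    exact Real.exp_le_exp.2 h2
  have hlim1 : Tendsto (fun T : Finset Nat.Primes => Real.exp (∑ p ∈ T, (tt f p * tt g p *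
      ((p : ℕ) : ℝ) ^ (-(1 + ε)) - KC * (((p : ℕ) : ℝ) ^ (-(1 + ε))) ^ 2))) atTop
      (𝓝 (Real.exp (∑' p : Nat.Primes, (tt f p * tt g p *
      ((p : ℕ) : ℝ) ^ (-(1 + ε)) - KC * (((p : ℕ) : ℝ) ^ (-(1 + ε))) ^ 2)))) :=
    (Real.continuous_exp.tendsto _).comp hsum3.hasSum
  have hlim2 : Tendsto (fun T : Finset Nat.Primes => |∏ p ∈ T, LF f g (1 + ε) p|) atTop
      (𝓝 |CR (rc f) (rc g) (1 + ε)|) := Tendsto.abs hP
  have h3 := le_of_tendsto_of_tendsto' hlim1 hlim2 hfin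
  have h4 := Real.log_le_log (Real.exp_pos _) h3
  rw [Real.log_exp, hsum1.tsum_sub (hsum2.mul_left KC), tsum_mul_left] at h4
  have h5 : ∑' p : Nat.Primes, (((p : ℕ) : ℝ) ^ (-(1 + ε))) ^ 2 ≤
      ∑' p : Nat.Primes, ((p : ℕ) : ℝ) ^ (-2 : ℝ) := hsum2.tsum_le_tsum hle2 hs2
  have h6 := mul_le_mul_of_nonneg_left h5 KC_nonneg
  unfold K2
  have h7 : (E ε fun p : Nat.Primes => tt f p * tt g p) =
      ∑' p : Nat.Primes, tt f p * tt g p * ((p : ℕ) : ℝ) ^ (-(1 + ε)) := rfl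
  rw [h7]
  linarith

theorem shift_nhds : Tendsto (fun ε : ℝ => 1 + ε) (𝓝[>] 0) (𝓝[>] 1) := by
  rw [tendsto_nhdsWithin_iff]
  constructor
  · have : Continuous fun w : ℝ => 1 + w := by fun_prop
    have := this.tendsto 0
    rw [add_zero] at this
    exact this.mono_left nhdsWithin_le_nhds
  · filter_upwards [self_mem_nhdsWithin] with w hw
    have hw0 : (0 : ℝ) < w := hw
    show (1 : ℝ) < 1 + w
    linarith

/-- **One-sided orthogonality of different eigenforms.** -/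
theorem cross_le (hf : Hecke f) (hg : Hecke g) {p : ℕ} (hp : p.Prime) (h1 : ¬ p ∣ M₁)
    (h2 : ¬ p ∣ M₂) (hne : rc f p ≠ rc g p) :
    ∃ C : ℝ, ∀ᶠ ε : ℝ in 𝓝[>] 0, (E ε fun p : Nat.Primes => tt f p * tt g p) ≤ C := by
  obtain ⟨C, hC⟩ := D_bdd hf hg hp h1 h2 hne
  refine ⟨Real.log (|C| + 1) + K2, ?_⟩
  filter_upwards [shift_nhds.eventually hC, self_mem_nhdsWithin] with ε h3 h4
  have hε : (0 : ℝ) < ε := h4
  refine (E_le_log hf hg hε).trans ?_
  have h5 : Real.log |CR (rc f) (rc g) (1 + ε)| ≤ Real.log (|C| + 1) := by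
    rcases eq_or_lt_of_le (abs_nonneg (CR (rc f) (rc g) (1 + ε))) with h6 | h6
    · rw [← h6, Real.log_zero]
      exact Real.log_nonneg (by have := abs_nonneg C; linarith)
    · refine Real.log_le_log h6 ?_
      have := le_abs_self C
      linarith
  linarith

/-- **The norm of an eigenform.** -/
theorem self_le (hf : Hecke f) : ∃ C : ℝ, ∀ᶠ ε : ℝ in 𝓝[>] 0,
    (E ε fun p : Nat.Primes => tt f p * tt f p) ≤ Real.log (1 / ε) + C := by
  obtain ⟨-, c, hc, hlim⟩ := rs_form f hf.one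
  have h1 := hlim.comp shift_nhds
  have h2 := h1.eventually (gt_mem_nhds (lt_add_one c))
  refine ⟨Real.log (c + 1) + K2, ?_⟩
  filter_upwards [h2, self_mem_nhdsWithin] with ε h3 h4
  have hε : (0 : ℝ) < ε := h4
  refine (E_le_log hf hf hε).trans ?_
  have e1 : CR (rc f) (rc f) (1 + ε) = ∑' n : ℕ, gg f n * (n : ℝ) ^ (-(1 + ε)) := by
    unfold CR
    refine tsum_congr fun n => ?_
    rw [gg_eq hf.real]
    ring
  simp only [Function.comp_apply] at h3
  rw [add_sub_cancel_left, ← e1] at h3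
  have h0 : 0 ≤ CR (rc f) (rc f) (1 + ε) := by
    rw [e1]
    exact tsum_nonneg fun n => mul_nonneg (gg_nonneg f n) (by positivity)
  have h5 : Real.log |CR (rc f) (rc f) (1 + ε)| ≤ Real.log (1 / ε) + Real.log (c + 1) := by
    rw [abs_of_nonneg h0, ← Real.log_mul (by positivity) (by positivity)]
    rcases eq_or_lt_of_le h0 with h6 | h6
    · exfalso
      have h8 := (Sm_of hf (1 + ε) (by linarith)).le_tsum 1 (fun n _ => mul_nonneg
        (gg_nonneg f n) (by positivity : (0:ℝ) ≤ (n : ℝ) ^ (-(1 + ε))))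
      rw [← e1, ← h6] at h8
      simp only [Nat.cast_one, Real.one_rpow, mul_one] at h8
      rw [gg_eq hf.real, rc_one hf] at h8
      norm_num at h8
    · refine Real.log_le_log h6 ?_
      rw [one_div, inv_mul_eq_div, le_div_iff₀ hε, mul_comm]
      exact h3.le
  linarith

end

end Pool.Agent.Y722.RS
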