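import Pool.Agent.Y722.RS.Cross

/-! Two eigenforms with different eigenvalues at a good prime. -/

set_option autoImplicit false

namespace Pool.Agent.Y722.RS

open MeasureTheory Filter Topology UpperHalfPlane CongruenceSubgroup Complex
open scoped ENNReal MatrixGroups ModularForm Pointwise
open Pool.Agent.W165.RS (ac ac_zero)
open Pool.Agent.TH941 (gg gg_nonneg strip3 cc_pos rs_form Hecke)

section
variable {M : ℕ} [NeZero M] {f : S2 M}

theorem rc_mul (hf : Hecke f) {m n : ℕ} (h : Nat.Coprime m n) : rc f (m * n) = rc f m * rc f n := by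
  have h1 := hf.mul m n h
  rw [rc_eq hf.real, rc_eq hf.real, rc_eq hf.real] at h1
  exact_mod_cast h1

theorem rc_pow (hf : Hecke f) {p : ℕ} (hp : p.Prime) (j : ℕ) :
    rc f (p ^ (j + 2)) = rc f p * rc f (p ^ (j + 1)) -
      (if p ∣ M then 0 else (p : ℝ) * rc f (p ^ j)) := by
  have h1 := hf.pow p j hp
  rw [rc_eq hf.real, rc_eq hf.real, rc_eq hf.real, rc_eq hf.real] at h1
  split_ifs at h1 ⊢
  · exact_mod_cast h1
  · exact_mod_cast h1

theorem rc_one (hf : Hecke f) : rc f 1 = 1 := by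
  unfold rc; rw [hf.one]; simp

theorem rc_zero (f : S2 M) : rc f 0 = 0 := by
  unfold rc; rw [ac_zero]; simp

theorem Sm_of (hf : Hecke f) : Sm f := (rs_form f hf.one).1

/-- the Hecke relation at a good prime -/
theorem hecke_rel (hf : Hecke f) {p : ℕ} (hp : p.Prime) (hpM : ¬ p ∣ M) (m : ℕ) :
    rc f (p * m) = rc f p * rc f m - if p ∣ m then p * rc f (m / p) else 0 := by
  rcases Nat.eq_zero_or_pos m with rfl | hm
  · simp [rc_zero]
  obtain ⟨j, m', hm', rfl⟩ := Nat.exists_eq_pow_mul_and_not_dvd hm.ne' p hp.ne_one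
  have hc : ∀ i : ℕ, Nat.Coprime (p ^ i) m' := fun i =>
    Nat.Coprime.pow_left i ((Nat.Prime.coprime_iff_not_dvd hp).2 hm')
  rcases Nat.eq_zero_or_pos j with rfl | hj
  · rw [pow_zero, one_mul, if_neg hm', sub_zero]
    have := hc 1
    rw [pow_one] at this
    exact rc_mul hf this
  · obtain ⟨i, rfl⟩ : ∃ i, j = i + 1 := ⟨j - 1, by omega⟩
    have e1 : p * (p ^ (i + 1) * m') = p ^ (i + 2) * m' := by ring
    have e2 : p ^ (i + 1) * m' / p = p ^ i * m' := by
      rw [show p ^ (i + 1) * m' = p * (p ^ i * m') by ring, Nat.mul_div_cancel_left _ hp.pos]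
    rw [e1, if_pos (Dvd.intro (p ^ i * m') (by ring)), e2, rc_mul hf (hc _), rc_mul hf (hc _),
      rc_mul hf (hc _), rc_pow hf hp, if_neg hpM]
    ring

end

theorem CR_summable {a b : ℕ → ℝ} {s : ℝ} (ha : Summable fun n : ℕ => a n ^ 2 / n * (n : ℝ) ^ (-s))
    (hb : Summable fun n : ℕ => b n ^ 2 / n * (n : ℝ) ^ (-s)) :
    Summable fun n : ℕ => |a n * b n / n * (n : ℝ) ^ (-s)| := by
  refine Summable.of_nonneg_of_le (fun n => abs_nonneg _) (fun n => ?_) (ha.add hb)
  rw [← add_mul, ← add_div, abs_mul, abs_div, Nat.abs_cast,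
    abs_of_nonneg (Real.rpow_nonneg (Nat.cast_nonneg n) (-s))]
  refine mul_le_mul_of_nonneg_right ?_ (by positivity)
  refine div_le_div_of_nonneg_right ?_ (Nat.cast_nonneg n)
  rw [abs_mul]
  nlinarith [sq_nonneg (|a n| - |b n|), sq_abs (a n), sq_abs (b n), sq_nonneg (|a n| + |b n|),
    abs_nonneg (a n), abs_nonneg (b n)]

/-- the relation between the cross terms -/
theorem CR_rel {a b : ℕ → ℝ} {p : ℕ} [NeZero p] {s : ℝ}
    (hb : ∀ m, b (p * m) = b p * b m - if p ∣ m then p * b (m / p) else 0)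
    (hs : Summable fun n : ℕ => |a n * b n / n * (n : ℝ) ^ (-s)|)
    (hs2 : Summable fun n : ℕ => |a n * b (p * n) / n * (n : ℝ) ^ (-s)|) :
    CR a (fun n => b (p * n)) s = b p * CR a b s - (p : ℝ) ^ (-s) * CR b (fun n => a (p * n)) s := by
  have hs' := hs.of_abs
  have hs2' := hs2.of_abs
  set F : ℕ → ℝ := fun n => a n * (if p ∣ n then p * b (n / p) else 0) / n * (n : ℝ) ^ (-s) with hF
  have hFe : ∀ n, F n = b p * (a n * b n / n * (n : ℝ) ^ (-s)) -
      a n * b (p * n) / n * (n : ℝ) ^ (-s) := by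
    intro n
    rw [hF]
    simp only
    rw [hb n]
    ring
  have hFs : Summable F := by
    refine ((hs'.mul_left (b p)).sub hs2').congr fun n => ?_
    rw [hFe]
  have h1 : ∑' n, F n = (p : ℝ) ^ (-s) * CR b (fun n => a (p * n)) s := by
    rw [tsum_upf p F]
    · unfold CR
      rw [← tsum_mul_left]
      refine tsum_congr fun m => ?_
      rw [hF]
      simp only
      rw [if_pos (dvd_mul_right p m), Nat.mul_div_cancel_left _ (NeZero.pos p)]
      push_cast
      rw [Real.mul_rpow (Nat.cast_nonneg _) (Nat.cast_nonneg _)]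
      have hp : (p : ℝ) ≠ 0 := by exact_mod_cast NeZero.ne p
      rcases Nat.eq_zero_or_pos m with rfl | hm
      · simp
      · have hm' : (m : ℝ) ≠ 0 := by exact_mod_cast hm.ne'
        field_simp
    · intro n hn
      rw [hF]
      simp only
      rw [if_neg hn]
      simp
  rw [← h1]
  unfold CR
  rw [← tsum_mul_left, ← (hs'.mul_left (b p)).tsum_sub hFs]
  refine tsum_congr fun n => ?_
  rw [hFe]
  ring

theorem Sm_rc {M : ℕ} {f : S2 M} (hr : ∀ n, (ac f n).im = 0) {s : ℝ}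
    (h : Summable fun n : ℕ => gg f n * (n : ℝ) ^ (-s)) :
    Summable fun n : ℕ => rc f n ^ 2 / n * (n : ℝ) ^ (-s) := by
  refine h.congr fun n => ?_
  rw [gg_eq hr]

/-- the shifted sequence has the same summability -/
theorem shift_summable {b : ℕ → ℝ} {p : ℕ} [NeZero p] {s : ℝ}
    (h : Summable fun n : ℕ => b n ^ 2 / n * (n : ℝ) ^ (-s)) :
    Summable fun n : ℕ => b (p * n) ^ 2 / n * (n : ℝ) ^ (-s) := by
  have hinj : Function.Injective (fun n : ℕ => p * n) := fun x y hxy =>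
    Nat.eq_of_mul_eq_mul_left (NeZero.pos p) hxy
  have h1 := (h.comp_injective hinj).mul_left ((p : ℝ) * (p : ℝ) ^ s)
  refine h1.congr fun m => ?_
  simp only [Function.comp_apply]
  push_cast
  have hp : (0 : ℝ) < p := by exact_mod_cast NeZero.pos p
  rw [Real.mul_rpow (Nat.cast_nonneg _) (Nat.cast_nonneg _), Real.rpow_neg hp.le]
  have hps : (p : ℝ) ^ s ≠ 0 := (Real.rpow_pos_of_pos hp s).ne'
  rcases Nat.eq_zero_or_pos m with rfl | hm
  · simp
  · have hm' : (m : ℝ) ≠ 0 := by exact_mod_cast hm.ne'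
    field_simp

/-- **The Rankin-Selberg series of two different eigenforms is bounded at the edge.** -/
theorem D_bdd {M₁ M₂ : ℕ} [NeZero M₁] [NeZero M₂] {f : S2 M₁} {g : S2 M₂} (hf : Hecke f)
    (hg : Hecke g) {p : ℕ} (hp : p.Prime) (h1 : ¬ p ∣ M₁) (h2 : ¬ p ∣ M₂)
    (hne : rc f p ≠ rc g p) :
    ∃ C : ℝ, ∀ᶠ s : ℝ in 𝓝[>] 1, |CR (rc f) (rc g) s| ≤ C := by
  have : NeZero p := ⟨hp.ne_zero⟩
  have hco : Nat.Coprime p (M₁ * M₂) := (Nat.Prime.coprime_iff_not_dvd hp).2 fun h =>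
    ((Nat.Prime.dvd_mul hp).1 h).elim h1 h2
  obtain ⟨C, hC⟩ := cross_bdd hco (restr (M₁ * M₂) (dvd_mul_right _ _) f)
    (restr (M₁ * M₂) (dvd_mul_left _ _) g) (Sm_restr _ _ (Sm_of hf)) (Sm_restr _ _ (Sm_of hg))
    hf.real hg.real
  have q1 : rc (restr (M₁ * M₂) (dvd_mul_right _ _) f) = rc f := rfl
  have q2 : rc (restr (M₁ * M₂) (dvd_mul_left _ _) g) = rc g := rfl
  rw [q1, q2] at hC
  have hd : 0 < |rc g p - rc f p| := abs_pos.2 (sub_ne_zero.2 hne.symm)
  refine ⟨C / |rc g p - rc f p|, ?_⟩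
  filter_upwards [hC, self_mem_nhdsWithin] with s hs hs1
  have hs1' : (1 : ℝ) < s := hs1
  have sf := Sm_rc hf.real (Sm_of hf s hs1')
  have sg := Sm_rc hg.real (Sm_of hg s hs1')
  have e1 := CR_rel (a := rc f) (b := rc g) (hecke_rel hg hp h2) (CR_summable sf sg)
    (CR_summable sf (shift_summable sg))
  have e2 := CR_rel (a := rc g) (b := rc f) (hecke_rel hf hp h1) (CR_summable sg sf)
    (CR_summable sg (shift_summable sf))
  rw [CR_comm (rc g) (rc f)] at e2
  set A := CR (rc f) (fun n => rc g (p * n)) s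
  set B := CR (rc g) (fun n => rc f (p * n)) s
  set D := CR (rc f) (rc g) s
  have hp1 : (1 : ℝ) ≤ p := by exact_mod_cast hp.one_le
  have hx0 : 0 ≤ (p : ℝ) ^ (-s) := by positivity
  have hx1 : (p : ℝ) ^ (-s) ≤ 1 := Real.rpow_le_one_of_one_le_of_nonpos hp1 (by linarith)
  have h3 : (rc g p - rc f p) * D = (1 - (p : ℝ) ^ (-s)) * (A - B) := by linear_combination e2 - e1
  have h4 : |rc g p - rc f p| * |D| ≤ C := by
    rw [← abs_mul, h3, abs_mul, abs_of_nonneg (by linarith : (0 : ℝ) ≤ 1 - (p : ℝ) ^ (-s))]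
    calc (1 - (p : ℝ) ^ (-s)) * |A - B| ≤ 1 * |A - B| :=
          mul_le_mul_of_nonneg_right (by linarith) (abs_nonneg _)
      _ ≤ C := by rw [one_mul]; exact hs
  rw [le_div_iff₀ hd, mul_comm]
  exact h4

end Pool.Agent.Y722.RS
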