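import Pool.Agent.W165.RS.AP

/-! Sums over arithmetic progressions near `σ = 1`, with a bounded error term. -/

set_option autoImplicit false

namespace Pool.Agent.Y722.RS

open MeasureTheory Filter Topology
open scoped ENNReal
open Pool.Agent.W165.RS (ht Hn Hn_eq An An_eq ht_nonneg summable_ht tsum_ht_eq)

variable {N : ℕ} [NeZero N]

theorem ofReal_tendsto : Tendsto (fun σ : ℝ => (σ : ℂ)) (𝓝[>] 1) (𝓝[≠] 1) := by
  apply tendsto_nhdsWithin_of_tendsto_nhds_of_eventually_within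
  · have : Tendsto (fun σ : ℝ => (σ : ℂ)) (𝓝 1) (𝓝 ((1:ℝ):ℂ)) :=
      Complex.continuous_ofReal.tendsto 1
    simpa using this.mono_left nhdsWithin_le_nhds
  · filter_upwards [self_mem_nhdsWithin] with σ hσ
    simp only [Set.mem_compl_iff, Set.mem_singleton_iff]
    intro h
    have : σ = 1 := by exact_mod_cast h
    exact (ne_of_gt hσ) this

/-- a function with a finite limit is bounded near the point -/
theorem bdd_of_tendsto {f : ℝ → ℝ} {l : Filter ℝ} {c : ℝ} (h : Tendsto f l (𝓝 c)) :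
    ∀ᶠ s in l, |f s| ≤ |c| + 1 := by
  have h1 := h.abs
  filter_upwards [h1.eventually_lt_const (lt_add_one |c|)] with s hs using hs.le

theorem zeta_bdd : ∃ C : ℝ, 0 ≤ C ∧ ∀ᶠ σ : ℝ in 𝓝[>] 1,
    |(riemannZeta σ).re - 1 / (σ - 1)| ≤ C := by
  have h := (Complex.continuous_re.tendsto _).comp
    (tendsto_riemannZeta_sub_one_div.comp ofReal_tendsto)
  refine ⟨|((Real.eulerMascheroniConstant : ℝ) : ℂ).re| + 1, by positivity, ?_⟩
  filter_upwards [bdd_of_tendsto h] with σ hσ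
  · simp only [Function.comp] at hσ
    have e : (riemannZeta σ - 1 / ((σ : ℂ) - 1)).re = (riemannZeta σ).re - 1 / (σ - 1) := by
      rw [Complex.sub_re, show (1 / ((σ : ℂ) - 1)) = ((1 / (σ - 1) : ℝ) : ℂ) by push_cast; rfl,
        Complex.ofReal_re]
    rwa [e] at hσ

/-- the progression `c` modulo `N` -/
theorem ht_bdd (c : ZMod N) : ∃ C : ℝ, 0 ≤ C ∧ ∀ᶠ σ : ℝ in 𝓝[>] 1,
    |∑' n, ht c σ n - (N : ℝ)⁻¹ * (1 / (σ - 1))| ≤ C := by
  obtain ⟨C, hC, hz⟩ := zeta_bdd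
  set Φ : ZMod N → ℂ := fun j => (if j = c then (1:ℂ) else 0) with hΦ
  set Ψ : ZMod N → ℂ := fun j => Φ j - (N : ℂ)⁻¹ with hΨ
  have hN : (N : ℂ) ≠ 0 := by exact_mod_cast NeZero.ne N
  have hsum : ∑ j, Ψ j = 0 := by
    rw [hΨ, Finset.sum_sub_distrib, hΦ]
    simp [hN]
  have hd := ZMod.differentiable_LFunction_of_sum_zero hsum
  have hcont : Tendsto (fun σ : ℝ => (ZMod.LFunction Ψ σ).re) (𝓝[>] 1)
      (𝓝 (ZMod.LFunction Ψ 1).re) := by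
    have h1 : Tendsto (fun σ : ℝ => ZMod.LFunction Ψ σ) (𝓝[>] 1) (𝓝 (ZMod.LFunction Ψ 1)) :=
      (hd.continuous.tendsto 1).comp (ofReal_tendsto.mono_right nhdsWithin_le_nhds)
    exact (Complex.continuous_re.tendsto _).comp h1
  refine ⟨|(ZMod.LFunction Ψ 1).re| + 1 + C, by positivity, ?_⟩
  filter_upwards [bdd_of_tendsto hcont, hz, self_mem_nhdsWithin] with σ h1 h2 hσ
  have hσ1 : 1 < σ := hσ
  have hre : 1 < ((σ : ℝ) : ℂ).re := by simpa using hσ1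
  have e1 : ((∑' n, ht c σ n : ℝ) : ℂ) = ZMod.LFunction Ψ σ + (N : ℂ)⁻¹ * riemannZeta σ := by
    rw [tsum_ht_eq c hσ1, ZMod.LFunction_eq_LSeries _ hre, ZMod.LFunction_eq_LSeries _ hre,
      ← LSeries_one_eq_riemannZeta hre]
    have hs1 : LSeriesSummable (fun n : ℕ => Ψ (n : ZMod N)) (σ : ℂ) :=
      ZMod.LSeriesSummable_of_one_lt_re Ψ hre
    have hs2 : LSeriesSummable ((N : ℂ)⁻¹ • (1 : ℕ → ℂ)) (σ : ℂ) :=
      (LSeriesSummable_one_iff.2 hre).smul ((N : ℂ)⁻¹)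
    have e2 : (fun n : ℕ => (if (n : ZMod N) = c then (1:ℂ) else 0)) =
        (fun n : ℕ => Ψ (n : ZMod N)) + ((N : ℂ)⁻¹ • (1 : ℕ → ℂ)) := by
      funext n
      simp [hΨ, hΦ]
    rw [e2, LSeries_add hs1 hs2, LSeries_smul]
  have e3 : (∑' n, ht c σ n) = (ZMod.LFunction Ψ σ).re + (N : ℝ)⁻¹ * (riemannZeta σ).re := by
    have h3 := congrArg Complex.re e1
    rw [Complex.ofReal_re, Complex.add_re] at h3
    rw [h3, show ((N : ℂ)⁻¹) = (((N : ℝ)⁻¹ : ℝ) : ℂ) by push_cast; rfl, Complex.re_ofReal_mul]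
  have hN1 : (1:ℝ) ≤ N := by exact_mod_cast Nat.pos_of_ne_zero (NeZero.ne N)
  have hNi : (N : ℝ)⁻¹ ≤ 1 := inv_le_one_of_one_le₀ hN1
  have hNi0 : 0 ≤ (N : ℝ)⁻¹ := by positivity
  rw [e3]
  have e4 : (ZMod.LFunction Ψ σ).re + (N : ℝ)⁻¹ * (riemannZeta σ).re - (N : ℝ)⁻¹ * (1 / (σ - 1)) =
      (ZMod.LFunction Ψ σ).re + (N : ℝ)⁻¹ * ((riemannZeta σ).re - 1 / (σ - 1)) := by ring
  rw [e4]
  refine (abs_add_le _ _).trans (add_le_add h1 ?_)
  rw [abs_mul, abs_of_nonneg hNi0]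
  calc (N : ℝ)⁻¹ * |(riemannZeta σ).re - 1 / (σ - 1)| ≤ 1 * C :=
        mul_le_mul hNi h2 (abs_nonneg _) zero_le_one
    _ = C := one_mul _

theorem two_tendsto : Tendsto (fun s : ℝ => 2 * s - 1) (𝓝[>] 1) (𝓝[>] 1) := by
  apply tendsto_nhdsWithin_of_tendsto_nhds_of_eventually_within
  · have : Tendsto (fun s : ℝ => 2 * s - 1) (𝓝 1) (𝓝 (2 * 1 - 1)) :=
      (by fun_prop : Continuous fun s : ℝ => 2 * s - 1).tendsto 1
    norm_num at this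
    exact this.mono_left nhdsWithin_le_nhds
  · filter_upwards [self_mem_nhdsWithin] with σ hσ
    simp only [Set.mem_Ioi] at hσ ⊢
    linarith

/-- **`∑_{m ≡ a, m ≠ 0} |m|^{1-2s} = 1/(N(s-1)) + O(1)`**, upper and lower bounds, uniformly in the
class. -/
theorem An_bdd : ∃ C : ℝ, 0 ≤ C ∧ ∀ᶠ s : ℝ in 𝓝[>] 1, ∀ a : ZMod N,
    An a s ≤ ENNReal.ofReal ((N : ℝ)⁻¹ / (s - 1)) + ENNReal.ofReal C ∧
    ENNReal.ofReal ((N : ℝ)⁻¹ / (s - 1)) ≤ An a s + ENNReal.ofReal C := by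
  have h : ∀ c : ZMod N, ∃ C : ℝ, 0 ≤ C ∧ ∀ᶠ σ : ℝ in 𝓝[>] 1,
    |∑' n, ht c σ n - (N : ℝ)⁻¹ * (1 / (σ - 1))| ≤ C := ht_bdd
  choose C hC hev using h
  refine ⟨∑ c, 2 * C c, Finset.sum_nonneg fun c _ => by have := hC c; positivity, ?_⟩
  have hall : ∀ᶠ s : ℝ in 𝓝[>] 1, ∀ c : ZMod N,
      |∑' n, ht c (2 * s - 1) n - (N : ℝ)⁻¹ * (1 / ((2 * s - 1) - 1))| ≤ C c := by
    rw [eventually_all]
    intro c
    exact two_tendsto.eventually (hev c)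
  filter_upwards [hall, self_mem_nhdsWithin] with s hs hs1 a
  have hs1' : (1:ℝ) < s := hs1
  have hσ : 1 < 2 * s - 1 := by linarith
  have h1 := abs_le.1 (hs a)
  have h2 := abs_le.1 (hs (-a))
  have hT1 : 0 ≤ ∑' n, ht a (2 * s - 1) n := tsum_nonneg (ht_nonneg a _)
  have hT2 : 0 ≤ ∑' n, ht (-a) (2 * s - 1) n := tsum_nonneg (ht_nonneg (-a) _)
  have hs0 : (0:ℝ) < s - 1 := by linarith
  have hmain : (N : ℝ)⁻¹ * (1 / ((2 * s - 1) - 1)) = (N : ℝ)⁻¹ / (s - 1) / 2 := by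
    rw [show (2 * s - 1) - 1 = (s - 1) * 2 by ring, ← div_div]
    ring
  rw [hmain] at h1 h2
  have hCa : C a ≤ ∑ c, C c := Finset.single_le_sum (f := C) (fun c _ => hC c) (Finset.mem_univ a)
  have hCa' : C (-a) ≤ ∑ c, C c :=
    Finset.single_le_sum (f := C) (fun c _ => hC c) (Finset.mem_univ (-a))
  have hC2 : ∑ c, 2 * C c = ∑ c, C c + ∑ c, C c := by rw [← Finset.mul_sum]; ring
  have hm0 : 0 ≤ (N : ℝ)⁻¹ / (s - 1) := by positivity
  have hSC : 0 ≤ ∑ c, C c := Finset.sum_nonneg fun c _ => hC c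
  rw [An_eq, Hn_eq a hσ, Hn_eq (-a) hσ, ← ENNReal.ofReal_add hT1 hT2, hC2,
    ← ENNReal.ofReal_add hm0 (by positivity), ← ENNReal.ofReal_add (by positivity) (by positivity)]
  constructor
  · apply ENNReal.ofReal_le_ofReal
    linarith [h1.2, h2.2]
  · apply ENNReal.ofReal_le_ofReal
    linarith [h1.1, h2.1]

end Pool.Agent.Y722.RS
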