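import Pool.Agent.W165.RS.Limit
import Pool.Agent.Y722.RS.AnB

/-! The lattice sums `y^s ∑_{(m,n) ≡ (a,b)} |mw+n|^{-2s}` near `s = 1`, with an error term `O(y²)`. -/

set_option autoImplicit false

namespace Pool.Agent.Y722.RS

open MeasureTheory Filter Topology UpperHalfPlane
open scoped ENNReal
open Pool.Agent.W165.RS (An Zf Zf_le Zf_ge C2 C2_ne_top BB BB_nonneg BB_le)

variable {N : ℕ} [NeZero N]

/-- the main term -/
noncomputable def kap (N : ℕ) (s : ℝ) : ℝ≥0∞ := ENNReal.ofReal (BB s / ((N : ℝ) ^ 2 * (s - 1)))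

theorem rpow_up {y s : ℝ} (hy : 1 / 2 ≤ y) (h1 : 1 < s) (h2 : s ≤ 2) :
    y ^ (1 - s) ≤ 1 + (s - 1) := by
  rcases le_total 1 y with h | h
  · have : y ^ (1 - s) ≤ 1 := Real.rpow_le_one_of_one_le_of_nonpos h (by linarith)
    linarith
  · calc y ^ (1 - s) ≤ (1 / 2 : ℝ) ^ (1 - s) :=
          Real.rpow_le_rpow_of_nonpos (by norm_num) hy (by linarith)
      _ = (1 + 1 : ℝ) ^ (s - 1) := by
          rw [one_div, Real.inv_rpow (by norm_num), ← Real.rpow_neg (by norm_num)]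
          norm_num
      _ ≤ 1 + (s - 1) * 1 := rpow_one_add_le_one_add_mul_self (by norm_num) (by linarith)
          (by linarith)
      _ = _ := by ring

theorem rpow_lo {y s : ℝ} (hy : 1 / 2 ≤ y) (h1 : 1 < s) :
    1 - (s - 1) * y ≤ y ^ (1 - s) := by
  have hy0 : 0 < y := by linarith
  have h : Real.log y ≤ y := (Real.log_le_sub_one_of_pos hy0).trans (by linarith)
  calc 1 - (s - 1) * y ≤ 1 - (s - 1) * Real.log y := by
        have := mul_le_mul_of_nonneg_left h (by linarith : 0 ≤ s - 1)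
        linarith
    _ = Real.log y * (1 - s) + 1 := by ring
    _ ≤ Real.exp (Real.log y * (1 - s)) := Real.add_one_le_exp _
    _ = y ^ (1 - s) := by rw [Real.rpow_def_of_pos hy0]

theorem rpow_s_le {y s : ℝ} (hy : 1 / 2 ≤ y) (h1 : 1 < s) (h2 : s ≤ 2) : y ^ s ≤ 4 * y ^ 2 := by
  have hy0 : 0 < y := by linarith
  rcases le_total 1 y with h | h
  · calc y ^ s ≤ y ^ (2:ℝ) := Real.rpow_le_rpow_of_exponent_le h h2
      _ = y ^ 2 := Real.rpow_two _
      _ ≤ 4 * y ^ 2 := by nlinarith [sq_nonneg y]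
  · calc y ^ s ≤ 1 := Real.rpow_le_one hy0.le h (by linarith)
      _ ≤ 4 * y ^ 2 := by nlinarith

theorem rpow_neg_s_le {y s : ℝ} (hy : 1 / 2 ≤ y) (h1 : 1 < s) (h2 : s ≤ 2) :
    y ^ (-s) ≤ 16 * y ^ 2 := by
  have hy0 : 0 < y := by linarith
  calc y ^ (-s) ≤ (1 / 2 : ℝ) ^ (-s) := Real.rpow_le_rpow_of_nonpos (by norm_num) hy (by linarith)
    _ ≤ (1 / 2 : ℝ) ^ (-2 : ℝ) :=
        Real.rpow_le_rpow_of_exponent_ge (by norm_num) (by norm_num) (by linarith)
    _ = 4 := by rw [show (-2:ℝ) = ((-2:ℤ):ℝ) by norm_num, Real.rpow_intCast]; norm_num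
    _ ≤ 16 * y ^ 2 := by nlinarith

/-- **The lattice sums near `s = 1`.** -/
theorem Zf_bdd : ∃ C : ℝ≥0∞, C ≠ ∞ ∧ ∀ᶠ s : ℝ in 𝓝[>] 1, ∀ (a b : ZMod N) (w : ℍ), 1 / 2 ≤ w.im →
    ENNReal.ofReal (w.im ^ s) * Zf a b w s ≤ kap N s + C * ENNReal.ofReal (w.im ^ 2) ∧
    kap N s ≤ ENNReal.ofReal (w.im ^ s) * Zf a b w s + C * ENNReal.ofReal (w.im ^ 2) := by
  obtain ⟨C, hC, hev⟩ := An_bdd (N := N)
  have hN1 : (1:ℝ) ≤ N := by exact_mod_cast Nat.pos_of_ne_zero (NeZero.ne N)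
  have hNi : (N : ℝ)⁻¹ ≤ 1 := inv_le_one_of_one_le₀ hN1
  have hNi0 : 0 ≤ (N : ℝ)⁻¹ := by positivity
  set c2 : ℝ := C2.toReal with hc2
  have hC2 : C2 = ENNReal.ofReal c2 := (ENNReal.ofReal_toReal C2_ne_top).symm
  have hc20 : 0 ≤ c2 := ENNReal.toReal_nonneg
  have hπ := Real.pi_pos
  set K : ℝ := 4 * c2 + 64 * Real.pi * c2 + 8 * Real.pi + 8 * Real.pi * C + 4 * Real.pi with hK
  have hK0 : 0 ≤ K := by positivity
  refine ⟨ENNReal.ofReal K, ENNReal.ofReal_ne_top, ?_⟩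
  have h12 : ∀ᶠ s : ℝ in 𝓝[>] 1, 1 < s ∧ s ≤ 2 := by
    filter_upwards [Ioc_mem_nhdsGT (show (1:ℝ) < 2 by norm_num)] with s hs
    exact hs
  filter_upwards [hev, h12] with s hs hs12 a b w hw
  obtain ⟨h1, h2⟩ := hs12
  have hy0 : 0 < w.im := w.im_pos
  have hs0 : 0 < s - 1 := by linarith
  have hB0 := BB_nonneg s
  have hB := BB_le h1.le
  obtain ⟨hA1, hA2⟩ := hs a
  set y : ℝ := w.im with hy
  have hup := rpow_up hw h1 h2
  have hlo := rpow_lo hw h1
  have hys := rpow_s_le hw h1 h2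
  have hyns := rpow_neg_s_le hw h1 h2
  have hy1s0 : 0 < y ^ (1 - s) := Real.rpow_pos_of_pos hy0 _
  have hy4 : 1 ≤ 4 * y ^ 2 := by nlinarith
  have hyy : y ≤ 2 * y ^ 2 := by nlinarith
  have ep1 : y ^ s * y ^ (1 - 2 * s) = y ^ (1 - s) := by
    rw [← Real.rpow_add hy0]; congr 1; ring
  have ep2 : y ^ s * y ^ (-(2 * s)) = y ^ (-s) := by
    rw [← Real.rpow_add hy0]; congr 1; ring
  -- the coefficient of `An`
  set q : ℝ := (N:ℝ)⁻¹ * y ^ (1 - s) * BB s with hq
  have hq0 : 0 ≤ q := by positivity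
  have hq2 : q ≤ 2 * Real.pi := by
    have : y ^ (1 - s) ≤ 2 := by linarith
    calc q = (N:ℝ)⁻¹ * (y ^ (1 - s) * BB s) := by rw [hq]; ring
      _ ≤ 1 * (2 * Real.pi) := by
          apply mul_le_mul hNi _ (by positivity) (by norm_num)
          exact mul_le_mul this hB hB0 (by norm_num)
      _ = 2 * Real.pi := one_mul _
  have hmain : ENNReal.ofReal (y ^ s) * ENNReal.ofReal ((N:ℝ)⁻¹ * y ^ (1 - 2 * s) * BB s) =
      ENNReal.ofReal q := by
    rw [← ENNReal.ofReal_mul (by positivity)]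
    congr 1
    rw [hq, ← ep1]; ring
  have herr : ENNReal.ofReal (y ^ s) * (ENNReal.ofReal (4 * Real.pi * y ^ (-(2 * s))) * C2) =
      ENNReal.ofReal (4 * Real.pi * c2 * y ^ (-s)) := by
    rw [hC2, ← ENNReal.ofReal_mul (by positivity), ← ENNReal.ofReal_mul (by positivity)]
    congr 1
    rw [← ep2]; ring
  have hr1 : q * ((N:ℝ)⁻¹ / (s - 1)) = BB s / ((N : ℝ) ^ 2 * (s - 1)) * y ^ (1 - s) := by
    rw [hq]
    have : (N:ℝ) ≠ 0 := by positivity
    field_simp
  set κ : ℝ := BB s / ((N : ℝ) ^ 2 * (s - 1)) with hκ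
  have hκ0 : 0 ≤ κ := by positivity
  have hκs : κ * (s - 1) ≤ Real.pi := by
    have : κ * (s - 1) = BB s / (N:ℝ) ^ 2 := by rw [hκ]; field_simp
    rw [this]
    exact (div_le_self hB0 (by nlinarith)).trans hB
  constructor
  · calc ENNReal.ofReal (y ^ s) * Zf a b w s
        ≤ ENNReal.ofReal (y ^ s) * (C2 + (ENNReal.ofReal ((N:ℝ)⁻¹ * y ^ (1 - 2 * s) * BB s) *
          An a s + ENNReal.ofReal (4 * Real.pi * y ^ (-(2 * s))) * C2)) :=
          mul_le_mul_right (Zf_le a b w h1 h2) _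
      _ = ENNReal.ofReal (y ^ s) * C2 + (ENNReal.ofReal q * An a s +
          ENNReal.ofReal (4 * Real.pi * c2 * y ^ (-s))) := by
          rw [mul_add, mul_add, herr, ← hmain]; ring
      _ ≤ ENNReal.ofReal (y ^ s * c2) + (ENNReal.ofReal q *
          (ENNReal.ofReal ((N : ℝ)⁻¹ / (s - 1)) + ENNReal.ofReal C) +
          ENNReal.ofReal (4 * Real.pi * c2 * y ^ (-s))) := by
          gcongr
          rw [hC2, ← ENNReal.ofReal_mul (by positivity)]
      _ = ENNReal.ofReal (y ^ s * c2 + (q * ((N : ℝ)⁻¹ / (s - 1) + C) +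
          4 * Real.pi * c2 * y ^ (-s))) := by
          rw [← ENNReal.ofReal_add (by positivity) hC, ← ENNReal.ofReal_mul hq0,
            ← ENNReal.ofReal_add (by positivity) (by positivity),
            ← ENNReal.ofReal_add (by positivity) (by positivity)]
      _ ≤ ENNReal.ofReal (κ + K * y ^ 2) := by
          apply ENNReal.ofReal_le_ofReal
          rw [mul_add, hr1]
          have e1 : κ * y ^ (1 - s) ≤ κ + Real.pi := by
            calc κ * y ^ (1 - s) ≤ κ * (1 + (s - 1)) := mul_le_mul_of_nonneg_left hup hκ0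
              _ = κ + κ * (s - 1) := by ring
              _ ≤ _ := by linarith
          have e2 : y ^ s * c2 ≤ 4 * y ^ 2 * c2 := mul_le_mul_of_nonneg_right hys hc20
          have e3 : q * C ≤ 2 * Real.pi * C := mul_le_mul_of_nonneg_right hq2 hC
          have e4 : 4 * Real.pi * c2 * y ^ (-s) ≤ 4 * Real.pi * c2 * (16 * y ^ 2) :=
            mul_le_mul_of_nonneg_left hyns (by positivity)
          have e5 : Real.pi ≤ Real.pi * (4 * y ^ 2) := le_mul_of_one_le_right hπ.le hy4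
          have e6 : 2 * Real.pi * C ≤ 2 * Real.pi * C * (4 * y ^ 2) :=
            le_mul_of_one_le_right (by positivity) hy4
          have e7 : 0 ≤ Real.pi * y ^ 2 := by positivity
          have e9 : K * y ^ 2 = 4 * y ^ 2 * c2 + 4 * Real.pi * c2 * (16 * y ^ 2) +
              2 * (Real.pi * (4 * y ^ 2)) + 2 * Real.pi * C * (4 * y ^ 2) +
              4 * (Real.pi * y ^ 2) := by rw [hK]; ring
          have e10 : 0 ≤ Real.pi * (4 * y ^ 2) := by positivity
          rw [e9]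
          linarith
      _ = kap N s + ENNReal.ofReal K * ENNReal.ofReal (y ^ 2) := by
          rw [ENNReal.ofReal_add hκ0 (by positivity), ENNReal.ofReal_mul hK0]
          rfl
  · have e1 : κ ≤ κ * y ^ (1 - s) + 2 * Real.pi * y ^ 2 := by
      have h3 : κ * (1 - (s - 1) * y) ≤ κ * y ^ (1 - s) := mul_le_mul_of_nonneg_left hlo hκ0
      have h4 : κ * ((s - 1) * y) ≤ Real.pi * y := by
        calc κ * ((s - 1) * y) = (κ * (s - 1)) * y := by ring
          _ ≤ Real.pi * y := mul_le_mul_of_nonneg_right hκs hy0.le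
      have h5 : Real.pi * y ≤ Real.pi * (2 * y ^ 2) := mul_le_mul_of_nonneg_left hyy hπ.le
      have h6 : κ * (1 - (s - 1) * y) = κ - κ * ((s - 1) * y) := by ring
      linarith
    calc kap N s = ENNReal.ofReal κ := rfl
      _ ≤ ENNReal.ofReal (q * ((N:ℝ)⁻¹ / (s - 1)) + 2 * Real.pi * y ^ 2) := by
          apply ENNReal.ofReal_le_ofReal
          rw [hr1]; exact e1
      _ = ENNReal.ofReal q * ENNReal.ofReal ((N:ℝ)⁻¹ / (s - 1)) +
          ENNReal.ofReal (2 * Real.pi * y ^ 2) := by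
          rw [ENNReal.ofReal_add (by positivity) (by positivity), ENNReal.ofReal_mul hq0]
      _ ≤ ENNReal.ofReal q * (An a s + ENNReal.ofReal C) + ENNReal.ofReal (2 * Real.pi * y ^ 2) := by
          gcongr
      _ = ENNReal.ofReal (y ^ s) * (ENNReal.ofReal ((N:ℝ)⁻¹ * y ^ (1 - 2 * s) * BB s) * An a s) +
          (ENNReal.ofReal (q * C) + ENNReal.ofReal (2 * Real.pi * y ^ 2)) := by
          rw [mul_add, ← hmain, ENNReal.ofReal_mul hq0, ← hmain]; ring
      _ ≤ ENNReal.ofReal (y ^ s) * (Zf a b w s + ENNReal.ofReal (4 * Real.pi * y ^ (-(2 * s))) * C2) +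
          (ENNReal.ofReal (q * C) + ENNReal.ofReal (2 * Real.pi * y ^ 2)) := by
          gcongr
          exact Zf_ge a b w h1 h2
      _ = ENNReal.ofReal (y ^ s) * Zf a b w s + (ENNReal.ofReal (4 * Real.pi * c2 * y ^ (-s)) +
          (ENNReal.ofReal (q * C) + ENNReal.ofReal (2 * Real.pi * y ^ 2))) := by
          rw [mul_add, herr]; ring
      _ ≤ ENNReal.ofReal (y ^ s) * Zf a b w s + ENNReal.ofReal K * ENNReal.ofReal (y ^ 2) := by
          gcongr
          rw [← ENNReal.ofReal_add (by positivity) (by positivity),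
            ← ENNReal.ofReal_add (by positivity) (by positivity), ← ENNReal.ofReal_mul hK0]
          apply ENNReal.ofReal_le_ofReal
          have e3 : q * C ≤ 2 * Real.pi * C := mul_le_mul_of_nonneg_right hq2 hC
          have e4 : 4 * Real.pi * c2 * y ^ (-s) ≤ 4 * Real.pi * c2 * (16 * y ^ 2) :=
            mul_le_mul_of_nonneg_left hyns (by positivity)
          have e6 : 2 * Real.pi * C ≤ 2 * Real.pi * C * (4 * y ^ 2) :=
            le_mul_of_one_le_right (by positivity) hy4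
          have e7 : 0 ≤ Real.pi * y ^ 2 := by positivity
          have e8 : 0 ≤ 4 * y ^ 2 * c2 := by positivity
          have e9 : K * y ^ 2 = 4 * y ^ 2 * c2 + 4 * Real.pi * c2 * (16 * y ^ 2) +
              2 * (Real.pi * (4 * y ^ 2)) + 2 * Real.pi * C * (4 * y ^ 2) +
              4 * (Real.pi * y ^ 2) := by rw [hK]; ring
          have e10 : 0 ≤ Real.pi * (4 * y ^ 2) := by positivity
          rw [e9]
          linarith

end Pool.Agent.Y722.RS
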