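import Pool.Agent.Y722.RS.Conj
import Pool.Agent.TH941.Newform

/-! The Dirichlet series of the product of the coefficients of two eigenforms is bounded
at the edge. -/

set_option autoImplicit false

namespace Pool.Agent.Y722.RS

open MeasureTheory Filter Topology UpperHalfPlane CongruenceSubgroup Complex
open scoped ENNReal MatrixGroups ModularForm Pointwise
open Pool.Agent.W165.RS (ac ac_zero ee FF FF_eq one_mem0 FF_meas FF_inv FF_dec Inv Dec LN LN_ne_zero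
  LN_ne_top SS)
open Pool.Agent.TH941 (gg gg_nonneg strip3 cc_pos rs_form Hecke)

variable {N : ℕ} [NeZero N]

theorem one_le_LN (N : ℕ) (s : ℝ) : 1 ≤ LN N s := by
  unfold LN
  refine le_trans ?_ (ENNReal.le_tsum ⟨1, one_pos, Nat.coprime_one_left N⟩)
  simp

/-- forms with the same mean value have nearly the same Dirichlet series -/
theorem I_le (h₁ h₂ : S2 N) (hT : TT N (FF h₁) = TT N (FF h₂)) :
    ∃ C : ℝ≥0∞, C ≠ ∞ ∧ ∀ᶠ s : ℝ in 𝓝[>] 1,
      ∫⁻ z in SS, FF h₁ z * ENNReal.ofReal (z.im ^ s) ≤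
        (∫⁻ z in SS, FF h₂ z * ENNReal.ofReal (z.im ^ s)) + C := by
  obtain ⟨C₁, hC₁, h1⟩ := rs_bdd (FF_meas h₁) (FF_inv h₁) (FF_dec h₁)
  obtain ⟨C₂, hC₂, h2⟩ := rs_bdd (FF_meas h₂) (FF_inv h₂) (FF_dec h₂)
  refine ⟨C₂ + C₁, ENNReal.add_ne_top.2 ⟨hC₂, hC₁⟩, ?_⟩
  filter_upwards [h1, h2, self_mem_nhdsWithin] with s hs1 hs2 hs
  have hs' : (1 : ℝ) < s := hs
  have h3 : LN N s * ∫⁻ z in SS, FF h₁ z * ENNReal.ofReal (z.im ^ s) ≤
      LN N s * (∫⁻ z in SS, FF h₂ z * ENNReal.ofReal (z.im ^ s)) + (C₂ + C₁) := by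
    refine hs1.1.trans ?_
    rw [hT, ← add_assoc]
    exact add_le_add_left hs2.2 C₁
  have hne := LN_ne_zero N s
  have hnt := LN_ne_top N hs'.le
  have h4 : (C₂ + C₁) ≤ LN N s * (C₂ + C₁) := by
    calc (C₂ + C₁) = 1 * (C₂ + C₁) := (one_mul _).symm
      _ ≤ _ := mul_le_mul_left (one_le_LN N s) _
  have h5 := h3.trans (add_le_add_right h4 _)
  rw [← mul_add] at h5
  exact (ENNReal.mul_le_mul_iff_right hne hnt).1 h5

/-- the Dirichlet series -/
noncomputable def SD (h : S2 N) (s : ℝ) : ℝ := ∑' n : ℕ, gg h n * (n : ℝ) ^ (-s)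

/-- summability of the Dirichlet series -/
def Sm (h : S2 N) : Prop := ∀ s : ℝ, 1 < s → Summable fun n : ℕ => gg h n * (n : ℝ) ^ (-s)

omit [NeZero N] in
theorem term_nonneg (h : S2 N) (s : ℝ) (n : ℕ) : 0 ≤ gg h n * (n : ℝ) ^ (-s) :=
  mul_nonneg (gg_nonneg h n) (by positivity)

theorem strip_SD {h : S2 N} (hs : Sm h) {s : ℝ} (h1 : 1 < s) :
    ∫⁻ z in SS, FF h z * ENNReal.ofReal (z.im ^ s) =
      ENNReal.ofReal (((4 * Real.pi) ^ (-(s + 1)) * Real.Gamma (s + 1)) * SD h s) := by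
  rw [strip3 h (by linarith), ENNReal.ofReal_mul (cc_pos (by linarith)).le]
  congr 1
  unfold SD
  rw [ENNReal.ofReal_tsum_of_nonneg (term_nonneg h s) (hs s h1)]

/-- the archimedean factor is bounded below -/
theorem cc_lower : ∃ c : ℝ, 0 < c ∧ ∀ᶠ s : ℝ in 𝓝[>] 1,
    c ≤ (4 * Real.pi) ^ (-(s + 1)) * Real.Gamma (s + 1) := by
  have hfac : Tendsto (fun s : ℝ => ((4 * Real.pi) ^ (-(s + 1)) * Real.Gamma (s + 1))) (𝓝[>] 1)
      (𝓝 ((4 * Real.pi) ^ (-((1 : ℝ) + 1)) * Real.Gamma (1 + 1))) := by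
    have hpi := Real.pi_pos
    have c1 : ContinuousAt (fun s : ℝ => (4 * Real.pi) ^ (-(s + 1))) 1 := by
      refine ContinuousAt.rpow continuousAt_const (by fun_prop) (Or.inl (by positivity))
    have c2 : ContinuousAt (fun s : ℝ => Real.Gamma (s + 1)) 1 := by
      have : ContinuousAt Real.Gamma (1 + 1) := by
        refine (Real.differentiableAt_Gamma fun m => ?_).continuousAt
        have : (0 : ℝ) ≤ m := Nat.cast_nonneg m
        intro h
        linarith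
      exact ContinuousAt.comp (f := fun s : ℝ => s + 1) this (by fun_prop)
    exact ((c1.mul c2).tendsto).mono_left nhdsWithin_le_nhds
  have hpos := cc_pos (s := 1) (by norm_num)
  refine ⟨_, half_pos hpos, ?_⟩
  filter_upwards [hfac.eventually (lt_mem_nhds (half_lt_self hpos))] with s hs
  exact hs.le

theorem SD_le (h₁ h₂ : S2 N) (hs₁ : Sm h₁) (hs₂ : Sm h₂) (hT : TT N (FF h₁) = TT N (FF h₂)) :
    ∃ C : ℝ, ∀ᶠ s : ℝ in 𝓝[>] 1, SD h₁ s ≤ SD h₂ s + C := by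
  obtain ⟨C, hC, hev⟩ := I_le h₁ h₂ hT
  obtain ⟨c, hc, hcev⟩ := cc_lower
  refine ⟨C.toReal / c, ?_⟩
  filter_upwards [hev, hcev, self_mem_nhdsWithin] with s h1 h2 h3
  have h3' : (1 : ℝ) < s := h3
  rw [strip_SD hs₁ h3', strip_SD hs₂ h3'] at h1
  set k : ℝ := (4 * Real.pi) ^ (-(s + 1)) * Real.Gamma (s + 1) with hk
  have hk0 : 0 < k := lt_of_lt_of_le hc h2
  have hD2 : 0 ≤ SD h₂ s := tsum_nonneg (term_nonneg h₂ s)
  rw [← ENNReal.ofReal_toReal hC, ← ENNReal.ofReal_add (by positivity) ENNReal.toReal_nonneg,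
    ENNReal.ofReal_le_ofReal_iff (by positivity)] at h1
  have h4 : C.toReal ≤ k * (C.toReal / c) := by
    rw [mul_div_assoc']
    rw [le_div_iff₀ hc]
    rw [mul_comm]
    exact mul_le_mul_of_nonneg_right h2 ENNReal.toReal_nonneg
  have h5 : k * SD h₁ s ≤ k * (SD h₂ s + C.toReal / c) := by linarith
  exact le_of_mul_le_mul_left h5 hk0

/-! ## polarisation -/

theorem ac_add_smul (h₁ h₂ : S2 N) (u : ℂ) (n : ℕ) :
    ac (h₁ + u • h₂) n = ac h₁ n + u * ac h₂ n := by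
  refine ac_unique (h₁ + u • h₂) (fun n => ac h₁ n + u * ac h₂ n) (fun z => ?_) n
  have h := (hasSum_ac h₁ z).add ((hasSum_ac h₂ z).mul_left u)
  have e : (h₁ + u • h₂ : S2 N) z = h₁ z + u * h₂ z := rfl
  rw [e]
  refine h.congr_fun fun m => ?_
  ring

/-- real parts of the coefficients -/
noncomputable def rc {M : ℕ} (f : S2 M) (n : ℕ) : ℝ := (ac f n).re

theorem rc_eq {M : ℕ} {f : S2 M} (hf : ∀ n, (ac f n).im = 0) (n : ℕ) : ac f n = (rc f n : ℂ) := by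
  apply Complex.ext
  · simp [rc]
  · simp [hf n]

theorem gg_eq {M : ℕ} {f : S2 M} (hf : ∀ n, (ac f n).im = 0) (n : ℕ) :
    gg f n = rc f n ^ 2 / n := by
  unfold gg
  rw [rc_eq hf, Complex.norm_real, Real.norm_eq_abs, sq_abs]

/-- the Dirichlet series of the products -/
noncomputable def CR (a b : ℕ → ℝ) (s : ℝ) : ℝ := ∑' n : ℕ, a n * b n / n * (n : ℝ) ^ (-s)

theorem real_upf (p : ℕ) [NeZero p] {f : S2 N} (hf : ∀ n, (ac f n).im = 0) (n : ℕ) :
    (ac (upf p f) n).im = 0 := by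
  rw [ac_upf]
  split_ifs
  · rw [rc_eq hf, ← Complex.ofReal_natCast, ← Complex.ofReal_mul, Complex.ofReal_im]
  · simp

theorem rc_upf (p : ℕ) [NeZero p] (f : S2 N) (n : ℕ) :
    rc (upf p f) n = if p ∣ n then p * rc f (n / p) else 0 := by
  unfold rc
  rw [ac_upf]
  split_ifs
  · simp
  · simp

theorem Sm_restr (M : ℕ) [NeZero M] (hNM : N ∣ M) {f : S2 N} (hf : Sm f) : Sm (restr M hNM f) := hf

theorem tsum_upf (p : ℕ) [NeZero p] (F : ℕ → ℝ) (hF : ∀ n, ¬ p ∣ n → F n = 0) :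
    ∑' n, F n = ∑' m, F (p * m) := by
  have hinj : Function.Injective (fun n : ℕ => p * n) := fun a b hab =>
    Nat.eq_of_mul_eq_mul_left (NeZero.pos p) hab
  refine (hinj.tsum_eq ?_).symm
  intro n hn
  by_contra hcon
  refine hn (hF n ?_)
  rintro ⟨m, rfl⟩
  exact hcon ⟨m, rfl⟩

theorem summable_upf (p : ℕ) [NeZero p] (F : ℕ → ℝ) (hF : ∀ n, ¬ p ∣ n → F n = 0) :
    (Summable F) ↔ Summable fun m => F (p * m) := by
  have hinj : Function.Injective (fun n : ℕ => p * n) := fun a b hab =>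
    Nat.eq_of_mul_eq_mul_left (NeZero.pos p) hab
  refine (hinj.summable_iff ?_).symm
  intro n hn
  refine hF n ?_
  rintro ⟨m, rfl⟩
  exact hn ⟨m, rfl⟩

theorem Sm_upf (p : ℕ) [NeZero p] {f : S2 N} (hf : Sm f) : Sm (upf p f) := by
  intro s hs
  rw [summable_upf p]
  · have h1 := (hf s hs).mul_left ((p : ℝ) * (p : ℝ) ^ (-s))
    refine h1.congr fun m => ?_
    unfold gg
    rw [ac_upf, if_pos (dvd_mul_right p m), Nat.mul_div_cancel_left _ (NeZero.pos p), norm_mul,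
      Complex.norm_natCast]
    push_cast
    rw [Real.mul_rpow (Nat.cast_nonneg _) (Nat.cast_nonneg _)]
    have hp : (p : ℝ) ≠ 0 := by exact_mod_cast NeZero.ne p
    rcases Nat.eq_zero_or_pos m with rfl | hm
    · simp
    · have hm' : (m : ℝ) ≠ 0 := by exact_mod_cast hm.ne'
      field_simp
  · intro n hn
    unfold gg
    rw [ac_upf, if_neg hn]
    simp

theorem Sm_add {h₁ h₂ : S2 N} (hs₁ : Sm h₁) (hs₂ : Sm h₂) {u : ℂ} (hu : ‖u‖ ≤ 1) :
    Sm (h₁ + u • h₂) := by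
  intro s hs
  have h := ((hs₁ s hs).mul_left 2).add ((hs₂ s hs).mul_left 2)
  refine Summable.of_nonneg_of_le (term_nonneg _ s) (fun n => ?_) h
  rw [← mul_assoc, ← mul_assoc, ← add_mul]
  refine mul_le_mul_of_nonneg_right ?_ (by positivity)
  unfold gg
  rw [ac_add_smul, ← mul_div_assoc, ← mul_div_assoc, ← add_div]
  refine div_le_div_of_nonneg_right ?_ (Nat.cast_nonneg n)
  have h1 : ‖ac h₁ n + u * ac h₂ n‖ ≤ ‖ac h₁ n‖ + ‖ac h₂ n‖ := by
    refine (norm_add_le _ _).trans ?_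
    rw [norm_mul]
    have := mul_le_mul_of_nonneg_right hu (norm_nonneg (ac h₂ n))
    linarith
  have h2 := pow_le_pow_left₀ (norm_nonneg _) h1 2
  nlinarith [sq_nonneg (‖ac h₁ n‖ - ‖ac h₂ n‖)]

/-- polarisation -/
theorem polar {h₁ h₂ : S2 N} (hs₁ : Sm h₁) (hs₂ : Sm h₂) (hr₁ : ∀ n, (ac h₁ n).im = 0)
    (hr₂ : ∀ n, (ac h₂ n).im = 0) {s : ℝ} (hs : 1 < s) :
    SD (h₁ + (1 : ℂ) • h₂) s - SD (h₁ + (-1 : ℂ) • h₂) s = 4 * CR (rc h₁) (rc h₂) s := by
  unfold SD CR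
  rw [← ((Sm_add hs₁ hs₂ (by simp)) s hs).tsum_sub ((Sm_add hs₁ hs₂ (by simp)) s hs),
    ← tsum_mul_left]
  refine tsum_congr fun n => ?_
  unfold gg
  rw [ac_add_smul, ac_add_smul, rc_eq hr₁, rc_eq hr₂, ← Complex.ofReal_one, ← Complex.ofReal_neg,
    ← Complex.ofReal_mul, ← Complex.ofReal_mul, ← Complex.ofReal_add, ← Complex.ofReal_add,
    Complex.norm_real, Complex.norm_real, Real.norm_eq_abs, Real.norm_eq_abs, sq_abs, sq_abs]
  ring

theorem CR_upf (p : ℕ) [NeZero p] (f : S2 N) (b : ℕ → ℝ) (s : ℝ) :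
    CR (rc (upf p f)) b s = (p : ℝ) ^ (-s) * CR (rc f) (fun n => b (p * n)) s := by
  unfold CR
  rw [tsum_upf p, ← tsum_mul_left]
  · refine tsum_congr fun m => ?_
    rw [rc_upf, if_pos (dvd_mul_right p m), Nat.mul_div_cancel_left _ (NeZero.pos p)]
    push_cast
    rw [Real.mul_rpow (Nat.cast_nonneg _) (Nat.cast_nonneg _)]
    have hp : (p : ℝ) ≠ 0 := by exact_mod_cast NeZero.ne p
    rcases Nat.eq_zero_or_pos m with rfl | hm
    · simp
    · have hm' : (m : ℝ) ≠ 0 := by exact_mod_cast hm.ne'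
      field_simp
  · intro n hn
    rw [rc_upf, if_neg hn]
    simp

theorem CR_comm (a b : ℕ → ℝ) (s : ℝ) : CR a b s = CR b a s := by
  unfold CR
  refine tsum_congr fun n => ?_
  rw [mul_comm (a n)]

/-- **The cross terms at `p` differ by a bounded function.** -/
theorem cross_bdd {p : ℕ} [NeZero p] (h : Nat.Coprime p N) (f g : S2 N) (hf : Sm f) (hg : Sm g)
    (hfr : ∀ n, (ac f n).im = 0) (hgr : ∀ n, (ac g n).im = 0) :
    ∃ C : ℝ, ∀ᶠ s : ℝ in 𝓝[>] 1,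
      |CR (rc f) (fun n => rc g (p * n)) s - CR (rc g) (fun n => rc f (p * n)) s| ≤ C := by
  have hNM := dvd_mul_right N p
  have hf' := Sm_restr (N * p) hNM hf
  have hg' := Sm_restr (N * p) hNM hg
  have hfu := Sm_upf p hf
  have hgu := Sm_upf p hg
  have hfur := real_upf p hfr
  have hgur := real_upf p hgr
  have hu1 : ‖(1 : ℂ)‖ ≤ 1 := by simp
  have hu2 : ‖(-1 : ℂ)‖ ≤ 1 := by simp
  have hT1 := TT_cross h f g 1
  have hT2 := TT_cross h f g (-1)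
  obtain ⟨C1, h1⟩ := SD_le _ _ (Sm_add hfu hg' hu1) (Sm_add hf' hgu hu1) hT1
  obtain ⟨C2, h2⟩ := SD_le _ _ (Sm_add hf' hgu hu1) (Sm_add hfu hg' hu1) hT1.symm
  obtain ⟨C3, h3⟩ := SD_le _ _ (Sm_add hfu hg' hu2) (Sm_add hf' hgu hu2) hT2
  obtain ⟨C4, h4⟩ := SD_le _ _ (Sm_add hf' hgu hu2) (Sm_add hfu hg' hu2) hT2.symm
  have hp0 : (0 : ℝ) < p := by exact_mod_cast NeZero.pos p
  have hlt : ∀ᶠ s : ℝ in 𝓝[>] 1, s < 2 :=
    Filter.Eventually.filter_mono nhdsWithin_le_nhds (gt_mem_nhds one_lt_two)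
  refine ⟨(|C1| + |C2| + |C3| + |C4|) * (p : ℝ) ^ (2 : ℝ), ?_⟩
  filter_upwards [h1, h2, h3, h4, self_mem_nhdsWithin, hlt] with s e1 e2 e3 e4 hs hs2
  have hs' : (1 : ℝ) < s := hs
  have p1 := polar hfu hg' hfur hgr hs'
  have p2 := polar hf' hgu hfr hgur hs'
  rw [CR_upf] at p1
  rw [CR_comm, CR_upf] at p2
  have q1 : rc (restr (N * p) hNM g) = rc g := rfl
  have q2 : rc (restr (N * p) hNM f) = rc f := rfl
  rw [q1] at p1
  rw [q2] at p2
  set A := CR (rc f) (fun n => rc g (p * n)) s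
  set B := CR (rc g) (fun n => rc f (p * n)) s
  have hps : 0 < (p : ℝ) ^ (-s) := Real.rpow_pos_of_pos hp0 _
  have key : |4 * ((p : ℝ) ^ (-s) * A) - 4 * ((p : ℝ) ^ (-s) * B)| ≤ |C1| + |C2| + |C3| + |C4| := by
    rw [abs_le]
    have := le_abs_self C1
    have := le_abs_self C2
    have := le_abs_self C3
    have := le_abs_self C4
    have := abs_nonneg C1
    have := abs_nonneg C2
    have := abs_nonneg C3
    have := abs_nonneg C4
    constructor <;> linarith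
  have h5 : |A - B| * (p : ℝ) ^ (-s) ≤ |C1| + |C2| + |C3| + |C4| := by
    have e : 4 * ((p : ℝ) ^ (-s) * A) - 4 * ((p : ℝ) ^ (-s) * B) =
        4 * ((A - B) * (p : ℝ) ^ (-s)) := by ring
    rw [e, abs_mul, abs_mul, abs_of_pos hps, abs_of_pos (by norm_num : (0:ℝ) < 4)] at key
    have : 0 ≤ |A - B| * (p : ℝ) ^ (-s) := by positivity
    linarith
  have h6 : (1 : ℝ) ≤ (p : ℝ) ^ (-s) * (p : ℝ) ^ (2 : ℝ) := by
    rw [← Real.rpow_add hp0]
    exact Real.one_le_rpow (by exact_mod_cast NeZero.pos p) (by linarith)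
  calc |A - B| ≤ |A - B| * ((p : ℝ) ^ (-s) * (p : ℝ) ^ (2 : ℝ)) :=
        le_mul_of_one_le_right (abs_nonneg _) h6
    _ = |A - B| * (p : ℝ) ^ (-s) * (p : ℝ) ^ (2 : ℝ) := by ring
    _ ≤ _ := mul_le_mul_of_nonneg_right h5 (by positivity)

end Pool.Agent.Y722.RS
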