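import Pool.Agent.Y722.RS.Ineq
import Pool.Agent.W97.TW.HeckeForm

/-! Counting the classes `(a, b)` modulo `N` with `g_{ab} h ∈ Γ₀(N)`. -/

set_option autoImplicit false

namespace Pool.Agent.Y722.RS

open MeasureTheory Filter Topology UpperHalfPlane
open scoped ENNReal MatrixGroups Modular
open Pool.Agent.W165.RS (EE RR gam gam_10 gam_11 iot cls)

variable {N : ℕ} [NeZero N]

/-- `(a, b)` is the class of a primitive vector times an integer prime to `N` -/
def Valid (ab : ZMod N × ZMod N) : Prop := ∃ x : EE N × RR, cls (N := N) (iot x) = ab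

open Classical in
/-- the matrix of a class -/
noncomputable def gmat (ab : ZMod N × ZMod N) : SL(2, ℤ) :=
  if h : Valid ab then gam h.choose.2 else 1

theorem det_eq (h : SL(2, ℤ)) : h 0 0 * h 1 1 - h 0 1 * h 1 0 = 1 := by
  have := h.2
  rwa [Matrix.det_fin_two] at this

theorem det_zmod (h : SL(2, ℤ)) : ((h 0 0 : ℤ) : ZMod N) * (h 1 1 : ℤ) -
    (h 0 1 : ℤ) * (h 1 0 : ℤ) = 1 := by
  have := congrArg (fun x : ℤ => (x : ZMod N)) (det_eq h)
  push_cast at this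
  exact this

/-- membership in `Γ₀(N)` in terms of the class -/
theorem mem_iff {ab : ZMod N × ZMod N} (hv : Valid ab) (h : SL(2, ℤ)) :
    gmat ab * h ∈ CongruenceSubgroup.Gamma0 N ↔
      ab.1 * ((h 0 0 : ℤ) : ZMod N) + ab.2 * ((h 1 0 : ℤ) : ZMod N) = 0 := by
  unfold gmat
  rw [dif_pos hv]
  have hx := hv.choose_spec
  set x := hv.choose with hxd
  rw [CongruenceSubgroup.Gamma0_mem]
  have e1 : (gam x.2 * h) 1 0 = (gam x.2) 1 0 * h 0 0 + (gam x.2) 1 1 * h 1 0 := by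
    simp [Matrix.SpecialLinearGroup.coe_mul, Matrix.mul_apply, Fin.sum_univ_two]
  rw [e1, gam_10, gam_11]
  obtain ⟨⟨e, he, he'⟩, ⟨⟨c, d⟩, hcd⟩⟩ := x
  have ue : IsUnit ((e : ℕ) : ZMod N) := (ZMod.isUnit_iff_coprime e N).2 he'
  rw [← hx]
  simp only [cls, iot]
  push_cast
  have e2 : (e : ZMod N) * c * (h 0 0 : ℤ) + (e : ZMod N) * d * (h 1 0 : ℤ) =
      (e : ZMod N) * (c * (h 0 0 : ℤ) + d * (h 1 0 : ℤ)) := by ring
  rw [e2]
  constructor
  · intro h3; rw [h3, mul_zero]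
  · intro h3; exact (ue.mul_right_eq_zero).1 h3

/-- lifting a unit to a positive integer prime to `N` -/
theorem exists_lift (u : (ZMod N)ˣ) : ∃ e : ℕ, 0 < e ∧ e.Coprime N ∧ (e : ZMod N) = u := by
  refine ⟨(u : ZMod N).val + N, by have := Nat.pos_of_ne_zero (NeZero.ne N); omega, ?_, ?_⟩
  · rw [Nat.coprime_add_self_left]
    exact ZMod.val_coe_unit_coprime u
  · simp

theorem valid_unit (h : SL(2, ℤ)) (u : (ZMod N)ˣ) :
    Valid (N := N) (-((u : ZMod N) * ((h 1 0 : ℤ) : ZMod N)), (u : ZMod N) * ((h 0 0 : ℤ) : ZMod N)) := by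
  obtain ⟨e, he, he', hu⟩ := exists_lift u
  have hcop : IsCoprime (-(h 1 0)) (h 0 0) := by
    refine ⟨h 0 1, h 1 1, ?_⟩
    have := det_eq h
    linear_combination this
  refine ⟨(⟨e, he, he'⟩, ⟨(-(h 1 0), h 0 0), hcop⟩), ?_⟩
  simp only [cls, iot]
  push_cast
  rw [hu]
  simp

/-- the bijection of the units with the classes -/
theorem exists_unit (h : SL(2, ℤ)) {ab : ZMod N × ZMod N} (hv : Valid ab)
    (h0 : ab.1 * ((h 0 0 : ℤ) : ZMod N) + ab.2 * ((h 1 0 : ℤ) : ZMod N) = 0) :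
    ∃ u : (ZMod N)ˣ, (-((u : ZMod N) * ((h 1 0 : ℤ) : ZMod N)),
      (u : ZMod N) * ((h 0 0 : ℤ) : ZMod N)) = ab := by
  obtain ⟨⟨⟨e, he, he'⟩, ⟨⟨c, d⟩, hcd⟩⟩, hx⟩ := hv
  have hdet := det_zmod (N := N) h
  have ue : IsUnit ((e : ℕ) : ZMod N) := (ZMod.isUnit_iff_coprime e N).2 he'
  have h1 : ab.1 = e * c := by rw [← hx]; simp [cls, iot]
  have h2 : ab.2 = e * d := by rw [← hx]; simp [cls, iot]
  obtain ⟨p, q, hpq⟩ := hcd
  have hpq' : (p : ZMod N) * c + q * d = 1 := by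
    have := congrArg (fun x : ℤ => (x : ZMod N)) hpq
    push_cast at this
    exact this
  set v : ZMod N := ab.2 * (h 1 1 : ℤ) + ab.1 * (h 0 1 : ℤ) with hvd
  have e1 : -(v * ((h 1 0 : ℤ) : ZMod N)) = ab.1 := by
    rw [hvd]
    linear_combination ab.1 * hdet - ((h 1 1 : ℤ) : ZMod N) * h0
  have e2 : v * ((h 0 0 : ℤ) : ZMod N) = ab.2 := by
    rw [hvd]
    linear_combination ab.2 * hdet + ((h 0 1 : ℤ) : ZMod N) * h0
  have huv : IsUnit v := by
    have e3 : (e : ZMod N) = v * (-(p : ZMod N) * ((h 1 0 : ℤ) : ZMod N) +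
        q * ((h 0 0 : ℤ) : ZMod N)) := by
      have e4 : (e : ZMod N) = p * ab.1 + q * ab.2 := by
        rw [h1, h2]
        linear_combination -(e : ZMod N) * hpq'
      rw [e4]
      linear_combination -(p : ZMod N) * e1 - (q : ZMod N) * e2
    rw [e3] at ue
    exact isUnit_of_mul_isUnit_left ue
  refine ⟨huv.unit, ?_⟩
  rw [IsUnit.unit_spec]
  exact Prod.ext e1 e2

theorem unit_inj (h : SL(2, ℤ)) : Function.Injective (fun u : (ZMod N)ˣ =>
    ((-((u : ZMod N) * ((h 1 0 : ℤ) : ZMod N)), (u : ZMod N) * ((h 0 0 : ℤ) : ZMod N)) :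
      ZMod N × ZMod N)) := by
  intro u v huv
  simp only [Prod.mk.injEq] at huv
  have hdet := det_zmod (N := N) h
  apply Units.ext
  linear_combination (-(u : ZMod N) + v) * hdet + ((h 0 1 : ℤ) : ZMod N) * huv.1 +
    ((h 1 1 : ℤ) : ZMod N) * huv.2

open Classical in
/-- **The count.** -/
theorem count (h : SL(2, ℤ)) : (∑ ab : ZMod N × ZMod N,
    if Valid ab ∧ gmat ab * h ∈ CongruenceSubgroup.Gamma0 N then (1 : ℝ≥0∞) else 0) =
      (Fintype.card (ZMod N)ˣ : ℝ≥0∞) := by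
  rw [← Finset.sum_filter, Finset.sum_const, nsmul_eq_mul, mul_one]
  congr 1
  rw [← Finset.card_univ, ← Finset.card_image_of_injective _ (unit_inj (N := N) h)]
  congr 1
  ext ab
  simp only [Finset.mem_filter, Finset.mem_univ, true_and, Finset.mem_image]
  constructor
  · rintro ⟨hv, hm⟩
    exact exists_unit h hv ((mem_iff hv h).1 hm)
  · rintro ⟨u, rfl⟩
    have hv := valid_unit (N := N) h u
    refine ⟨hv, (mem_iff hv h).2 ?_⟩
    simp only
    ring

end Pool.Agent.Y722.RS
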