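import Pool.Agent.Y722.RS.Up

/-! The element `W` normalises `Γ₀(Np)`; equality of mean values. -/

set_option autoImplicit false

namespace Pool.Agent.Y722.RS

open MeasureTheory Filter Topology UpperHalfPlane CongruenceSubgroup Complex
open scoped ENNReal MatrixGroups ModularForm Pointwise
open Pool.Agent.W97.TW (al al_GL slash_al zero_slash' holo_slash mkSL mkSL_coe mkSL_mem exists_mkSL
  mkSL_GL al_mul al_det)
open Pool.Agent.W165.RS (ac ac_zero hasSum_f ee FF FF_eq one_mem0 FF_meas FF_inv Inv Dec)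

variable {N : ℕ} [NeZero N] {p : ℕ} [NeZero p] {a b c d : ℤ}
  (hab : (p : ℤ) * a * d - N * b * c = 1)

theorem SL_GL_inj {γ γ' : SL(2, ℤ)} (h : (γ : GL (Fin 2) ℝ) = γ') : γ = γ' := by
  obtain ⟨x, y, z, w, hx, rfl⟩ := exists_mkSL γ
  obtain ⟨x', y', z', w', hx', rfl⟩ := exists_mkSL γ'
  have e1 := congrArg (fun g : GL (Fin 2) ℝ => (g : Matrix (Fin 2) (Fin 2) ℝ)) h
  simp only [mkSL_GL] at e1
  have h00 := congrFun (congrFun e1 0) 0
  have h01 := congrFun (congrFun e1 0) 1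
  have h10 := congrFun (congrFun e1 1) 0
  have h11 := congrFun (congrFun e1 1) 1
  simp at h00 h01 h10 h11
  obtain rfl : x = x' := by exact_mod_cast h00
  obtain rfl : y = y' := by exact_mod_cast h01
  obtain rfl : z = z' := by exact_mod_cast h10
  obtain rfl : w = w' := by exact_mod_cast h11
  rfl

include hab in
theorem exists_conj (γ : SL(2, ℤ)) (hγ : γ ∈ Gamma0 (N * p)) :
    ∃ γ' : SL(2, ℤ), γ' ∈ Gamma0 (N * p) ∧
      W hab * (γ' : GL (Fin 2) ℝ) = (γ : GL (Fin 2) ℝ) * W hab := by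
  obtain ⟨x, y, z, w, hx, rfl⟩ := exists_mkSL γ
  obtain ⟨z', rfl⟩ := (mkSL_mem _ _ _ _ hx (N * p)).1 hγ
  push_cast at hx
  have hdet : (p * d * a * x + N * p * c * d * y - N * p * a * b * z' - N * b * c * w) *
      (-(N * b * c * x) - N * p * c * d * y + N * p * a * b * z' + p * a * d * w) -
      (b * d * x + p * d ^ 2 * y - N * b ^ 2 * z' - b * d * w) *
      ((N * p : ℕ) * (-(a * c * x) - N * c ^ 2 * y + p * a ^ 2 * z' + a * c * w)) = 1 := by
    push_cast
    linear_combination ((p : ℤ) * a * d - N * b * c + 1) * hab +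
      ((p : ℤ) * a * d - N * b * c) ^ 2 * hx
  refine ⟨mkSL _ _ _ _ hdet, (mkSL_mem _ _ _ _ hdet (N * p)).2 (dvd_mul_right _ _), ?_⟩
  refine al_mul (W_pos hab) (W_pos hab) _ _ ?_
  rw [mkSL_coe, mkSL_coe, Matrix.mul_fin_two, Matrix.mul_fin_two]
  ext i j
  fin_cases i <;> fin_cases j <;> simp
  · linear_combination ((p : ℤ) * a * x + N * p * c * y) * hab
  · linear_combination ((b : ℤ) * x + p * d * y) * hab
  · linear_combination ((p : ℤ) * (N * p * a * z') + N * p * c * w) * hab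
  · linear_combination ((N : ℤ) * p * b * z' + p * d * w) * hab

include hab in
theorem exists_conj' (γ : SL(2, ℤ)) (hγ : γ ∈ Gamma0 (N * p)) :
    ∃ γ' : SL(2, ℤ), γ' ∈ Gamma0 (N * p) ∧
      W hab * (γ : GL (Fin 2) ℝ) = (γ' : GL (Fin 2) ℝ) * W hab := by
  obtain ⟨x, y, z, w, hx, rfl⟩ := exists_mkSL γ
  obtain ⟨z', rfl⟩ := (mkSL_mem _ _ _ _ hx (N * p)).1 hγ
  push_cast at hx
  have hdet : (p * a * d * x + N * p * b * d * z' - N * p * a * c * y - N * b * c * w) *
      (-(N * b * c * x) - N * p * b * d * z' + N * p * a * c * y + p * a * d * w) -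
      (-(a * b * x) - N * b ^ 2 * z' + p * a ^ 2 * y + a * b * w) *
      ((N * p : ℕ) * (c * d * x + p * d ^ 2 * z' - N * c ^ 2 * y - c * d * w)) = 1 := by
    push_cast
    linear_combination ((p : ℤ) * a * d - N * b * c + 1) * hab +
      ((p : ℤ) * a * d - N * b * c) ^ 2 * hx
  refine ⟨mkSL _ _ _ _ hdet, (mkSL_mem _ _ _ _ hdet (N * p)).2 (dvd_mul_right _ _), ?_⟩
  refine al_mul (W_pos hab) (W_pos hab) _ _ ?_
  rw [mkSL_coe, mkSL_coe, Matrix.mul_fin_two, Matrix.mul_fin_two]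
  ext i j
  fin_cases i <;> fin_cases j <;> simp
  · linear_combination (-1 : ℤ) * ((p : ℤ) * a * x + N * p * b * z') * hab
  · linear_combination (-1 : ℤ) * ((p : ℤ) * a * y + b * w) * hab
  · linear_combination (-1 : ℤ) * ((N : ℤ) * p * c * x + N * p * p * d * z') * hab
  · linear_combination (-1 : ℤ) * ((N : ℤ) * p * c * y + p * d * w) * hab

/-- conjugation by `W` -/
noncomputable def cj (γ : Gamma0 (N * p)) : Gamma0 (N * p) :=
  ⟨(exists_conj hab γ.1 γ.2).choose, (exists_conj hab γ.1 γ.2).choose_spec.1⟩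

theorem cj_spec (γ : Gamma0 (N * p)) :
    W hab * (((cj hab γ : Gamma0 (N * p)) : SL(2, ℤ)) : GL (Fin 2) ℝ) =
      ((γ : SL(2, ℤ)) : GL (Fin 2) ℝ) * W hab := (exists_conj hab γ.1 γ.2).choose_spec.2

theorem cj_bij : Function.Bijective (cj hab) := by
  constructor
  · intro γ γ' h
    have h1 := cj_spec hab γ
    have h2 := cj_spec hab γ'
    rw [h] at h1
    exact Subtype.ext (SL_GL_inj (mul_right_cancel (h1.symm.trans h2)))
  · intro γ
    obtain ⟨γ', h, h'⟩ := exists_conj' hab γ.1 γ.2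
    refine ⟨⟨γ', h⟩, Subtype.ext (SL_GL_inj (mul_left_cancel (a := W hab) ?_))⟩
    rw [cj_spec]
    exact h'.symm

theorem smul_cj (γ : Gamma0 (N * p)) (z : ℍ) :
    W hab • (((cj hab γ : Gamma0 (N * p)) : SL(2, ℤ)) • z) = (γ : SL(2, ℤ)) • (W hab • z) := by
  rw [ModularGroup.sl_moeb, ModularGroup.sl_moeb, ← mul_smul, ← mul_smul, cj_spec]

theorem TT_W {F : ℍ → ℝ≥0∞} (hm : Measurable F) (hF : Inv (N * p) F) :
    TT (N * p) (fun z => F (W hab • z)) = TT (N * p) F :=
  TT_smul hm hF (W hab) (Equiv.ofBijective (cj hab) (cj_bij hab)) (smul_cj hab)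

/-- a Bézout relation -/
theorem exists_hab {N p : ℕ} (h : Nat.Coprime p N) :
    ∃ a b : ℤ, (p : ℤ) * a * 1 - N * b * 1 = 1 := by
  have h1 := Nat.gcd_eq_gcd_ab p N
  rw [h.gcd_eq_one] at h1
  refine ⟨Nat.gcdA p N, -Nat.gcdB p N, ?_⟩
  push_cast at h1
  linear_combination -h1

/-- **Equality of mean values.** -/
theorem TT_cross (h : Nat.Coprime p N) (f g : S2 N) (u : ℂ) :
    TT (N * p) (FF (upf p f + u • restr (N * p) (dvd_mul_right N p) g)) =
      TT (N * p) (FF (restr (N * p) (dvd_mul_right N p) f + u • upf p g)) := by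
  obtain ⟨a, b, hab⟩ := exists_hab h
  have h1 := TT_W hab (FF_meas (upf p f + u • restr (N * p) (dvd_mul_right N p) g))
    (FF_inv (upf p f + u • restr (N * p) (dvd_mul_right N p) g))
  rw [← h1]
  congr 1
  funext z
  refine FF_W hab _ _ ?_ z
  have e1 : ((upf p f + u • restr (N * p) (dvd_mul_right N p) g : S2 (N * p)) : ℍ → ℂ) =
      (upf p f : ℍ → ℂ) + u • (g : ℍ → ℂ) := rfl
  have e2 : ((restr (N * p) (dvd_mul_right N p) f + u • upf p g : S2 (N * p)) : ℍ → ℂ) =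
      (f : ℍ → ℂ) + u • (upf p g : ℍ → ℂ) := rfl
  have hσ : σ (W hab) u = u := by
    have hdet : 0 < (W hab).det.val := by
      unfold W
      rw [al_det]
      exact_mod_cast W_pos hab
    unfold σ
    rw [if_pos hdet]
    rfl
  rw [e1, e2, SlashAction.add_slash, ModularForm.smul_slash, upf_W, g_W, hσ]

end Pool.Agent.Y722.RS
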