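import Pool.Agent.Y722.RS.ZfB

/-! The Rankin-Selberg integral near `s = 1`, with a bounded error term. -/

set_option autoImplicit false

namespace Pool.Agent.Y722.RS

open MeasureTheory Filter Topology UpperHalfPlane
open scoped ENNReal MatrixGroups Modular
open Pool.Agent.W165.RS (Zf LN LN_mul_Pc Pc GG GG_dec Dec Inv inv_T im_fd measurable_GG measurable_Zf
  measurable_phi phi phi_le unfold_strip SS gam measurable_smul_SL measurableSet_fd volume_fd_ne_top RR)

variable {N : ℕ} [NeZero N]

/-- the mean value functional -/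
noncomputable def TT (N : ℕ) [NeZero N] (F : ℍ → ℝ≥0∞) : ℝ≥0∞ :=
  ∫⁻ z, phi z * ∑ ab : ZMod N × ZMod N, GG (N := N) F ab z

theorem unfold_LN {F : ℍ → ℝ≥0∞} (hm : Measurable F) (hF : Inv N F) (s : ℝ) :
    LN N s * ∫⁻ z in SS, F z * ENNReal.ofReal (z.im ^ s) = ∫⁻ z, phi z *
      ∑ ab : ZMod N × ZMod N, GG F ab z * (ENNReal.ofReal (z.im ^ s) * Zf ab.1 ab.2 z s) := by
  have him : Measurable (fun z : ℍ => z.im) := continuous_im.measurable
  have h1 := unfold_strip (fun z => F z * ENNReal.ofReal (z.im ^ s))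
    (hm.mul (ENNReal.measurable_ofReal.comp (him.pow_const s)))
    (fun n z => by beta_reduce; rw [inv_T hF n z, ModularGroup.im_T_zpow_smul])
  rw [h1]
  have h2 : ∀ z : ℍ, phi z * ∑ ab : ZMod N × ZMod N, GG F ab z *
      (ENNReal.ofReal (z.im ^ s) * Zf ab.1 ab.2 z s) = LN N s * (phi z * Pc F z s) := by
    intro z
    rw [show LN N s * (phi z * Pc F z s) = phi z * (LN N s * Pc F z s) by ring, LN_mul_Pc hF z s]
  simp_rw [h2]
  have hPm : Measurable fun z => phi z * Pc F z s := by
    refine measurable_phi.mul (Measurable.tsum fun r => ?_)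
    exact (hm.comp (measurable_smul_SL _)).mul (ENNReal.measurable_ofReal.comp
      ((him.comp (measurable_smul_SL _)).pow_const s))
  rw [lintegral_const_mul _ hPm]
  rfl

theorem phi_zero {z : ℍ} (hz : z ∉ (𝒟 : Set ℍ)) : phi z = 0 := by
  have := phi_le z
  rw [Set.indicator_of_notMem hz] at this
  exact le_zero_iff.1 this

theorem phi_le_one (z : ℍ) : phi z ≤ 1 :=
  (phi_le z).trans (Set.indicator_le_self' (fun _ _ => zero_le) z)

/-- **The Rankin-Selberg integral is `κ(s) T(F) + O(1)`.** -/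
theorem rs_bdd {F : ℍ → ℝ≥0∞} (hm : Measurable F) (hF : Inv N F) (hD : Dec F) :
    ∃ C : ℝ≥0∞, C ≠ ∞ ∧ ∀ᶠ s : ℝ in 𝓝[>] 1,
      LN N s * ∫⁻ z in SS, F z * ENNReal.ofReal (z.im ^ s) ≤ kap N s * TT N F + C ∧
      kap N s * TT N F ≤ LN N s * (∫⁻ z in SS, F z * ENNReal.ofReal (z.im ^ s)) + C := by
  obtain ⟨C, hC, hev⟩ := Zf_bdd (N := N)
  obtain ⟨K, hK, hKb⟩ := GG_dec (N := N) hD
  set B : ℝ≥0∞ := ∑ _ab : ZMod N × ZMod N, C * K with hB
  have hBtop : B ≠ ∞ := ENNReal.sum_ne_top.2 fun _ _ => ENNReal.mul_ne_top hC hK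
  have hBint : ∫⁻ z : ℍ, (Set.indicator 𝒟 (fun _ => B) z : ℝ≥0∞) ≠ ∞ := by
    rw [lintegral_indicator measurableSet_fd, setLIntegral_const]
    exact ENNReal.mul_ne_top hBtop volume_fd_ne_top
  have hBm : Measurable (Set.indicator (𝒟 : Set ℍ) (fun _ => B)) :=
    measurable_const.indicator measurableSet_fd
  refine ⟨_, hBint, ?_⟩
  filter_upwards [hev] with s hs
  rw [unfold_LN hm hF s]
  have hG : Measurable fun z => phi z * ∑ ab : ZMod N × ZMod N, GG F ab z :=
    measurable_phi.mul (Finset.measurable_sum _ fun ab _ => measurable_GG hm ab)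
  have herr : ∀ z ∈ (𝒟 : Set ℍ), phi z * ∑ ab : ZMod N × ZMod N,
      (C * (GG F ab z * ENNReal.ofReal (z.im ^ 2))) ≤ (Set.indicator 𝒟 (fun _ => B) z : ℝ≥0∞) := by
    intro z hz
    rw [Set.indicator_of_mem hz]
    calc phi z * ∑ ab : ZMod N × ZMod N, (C * (GG F ab z * ENNReal.ofReal (z.im ^ 2))) ≤
        1 * ∑ ab : ZMod N × ZMod N, C * K := by
          refine mul_le_mul' (phi_le_one z) (Finset.sum_le_sum fun ab _ => ?_)
          exact mul_le_mul_right (hKb ab z (im_fd hz)) C
      _ = B := by rw [one_mul]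
  constructor
  · unfold TT
    rw [← lintegral_const_mul _ hG, ← lintegral_add_right _ hBm]
    refine lintegral_mono fun z => ?_
    by_cases hz : z ∈ (𝒟 : Set ℍ)
    · have hv := im_fd hz
      calc phi z * ∑ ab : ZMod N × ZMod N, GG F ab z * (ENNReal.ofReal (z.im ^ s) * Zf ab.1 ab.2 z s)
          ≤ phi z * ∑ ab : ZMod N × ZMod N, GG F ab z *
            (kap N s + C * ENNReal.ofReal (z.im ^ 2)) := by
            gcongr with ab
            exact (hs ab.1 ab.2 z hv).1
        _ = kap N s * (phi z * ∑ ab : ZMod N × ZMod N, GG F ab z) +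
            phi z * ∑ ab : ZMod N × ZMod N, (C * (GG F ab z * ENNReal.ofReal (z.im ^ 2))) := by
            have e : ∀ ab : ZMod N × ZMod N, GG F ab z * (kap N s + C * ENNReal.ofReal (z.im ^ 2)) =
                kap N s * GG F ab z + C * (GG F ab z * ENNReal.ofReal (z.im ^ 2)) := by
              intro ab; ring
            simp_rw [e]
            rw [Finset.sum_add_distrib, ← Finset.mul_sum]
            ring
        _ ≤ _ := by
            gcongr
            exact herr z hz
    · simp only [phi_zero hz, zero_mul]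
      exact zero_le
  · unfold TT
    rw [← lintegral_const_mul _ hG, ← lintegral_add_right _ hBm]
    refine lintegral_mono fun z => ?_
    by_cases hz : z ∈ (𝒟 : Set ℍ)
    · have hv := im_fd hz
      calc kap N s * (phi z * ∑ ab : ZMod N × ZMod N, GG F ab z)
          = phi z * ∑ ab : ZMod N × ZMod N, GG F ab z * kap N s := by
            rw [← Finset.sum_mul]; ring
        _ ≤ phi z * ∑ ab : ZMod N × ZMod N, GG F ab z *
            (ENNReal.ofReal (z.im ^ s) * Zf ab.1 ab.2 z s + C * ENNReal.ofReal (z.im ^ 2)) := by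
            gcongr with ab
            exact (hs ab.1 ab.2 z hv).2
        _ = phi z * ∑ ab : ZMod N × ZMod N, GG F ab z *
              (ENNReal.ofReal (z.im ^ s) * Zf ab.1 ab.2 z s) +
            phi z * ∑ ab : ZMod N × ZMod N, (C * (GG F ab z * ENNReal.ofReal (z.im ^ 2))) := by
            have e : ∀ ab : ZMod N × ZMod N, GG F ab z *
                (ENNReal.ofReal (z.im ^ s) * Zf ab.1 ab.2 z s + C * ENNReal.ofReal (z.im ^ 2)) =
                GG F ab z * (ENNReal.ofReal (z.im ^ s) * Zf ab.1 ab.2 z s) +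
                  C * (GG F ab z * ENNReal.ofReal (z.im ^ 2)) := by
              intro ab; ring
            simp_rw [e]
            rw [Finset.sum_add_distrib, mul_add]
        _ ≤ _ := by
            gcongr
            exact herr z hz
    · simp only [phi_zero hz, zero_mul, mul_zero]
      exact zero_le

end Pool.Agent.Y722.RS
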