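import Pool.Agent.Y722.RS.Cnt

/-! The mean value functional is invariant under maps which normalise `Γ₀(N)`. -/

set_option autoImplicit false

namespace Pool.Agent.Y722.RS

open MeasureTheory Filter Topology UpperHalfPlane CongruenceSubgroup
open scoped ENNReal MatrixGroups Modular
open Pool.Agent.W165.RS (EE RR gam iot cls GG Inv measurable_GG measurable_phi phi tsum_phi
  lintegral_SL measurable_smul_SL)

variable {N : ℕ} [NeZero N]

open Classical in
/-- the weight on the upper half-plane -/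
noncomputable def psi (N : ℕ) [NeZero N] (w : ℍ) : ℝ≥0∞ :=
  ∑ ab : ZMod N × ZMod N, if Valid ab then phi ((gmat ab)⁻¹ • w) else 0

theorem measurable_psi : Measurable (psi N) := by
  classical
  unfold psi
  refine Finset.measurable_sum _ fun ab _ => ?_
  split_ifs
  · exact measurable_phi.comp (measurable_smul_SL _)
  · exact measurable_const

open Classical in
theorem GG_gmat (F : ℍ → ℝ≥0∞) (ab : ZMod N × ZMod N) (w : ℍ) :
    GG (N := N) F ab w = if Valid ab then F (gmat ab • w) else 0 := by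
  unfold GG gmat
  by_cases h : Valid ab
  · have h' : ∃ x : EE N × RR, cls (N := N) (iot x) = ab := h
    rw [dif_pos h', if_pos h, dif_pos h]
  · have h' : ¬ ∃ x : EE N × RR, cls (N := N) (iot x) = ab := h
    rw [dif_neg h', if_neg h]

theorem TT_eq {F : ℍ → ℝ≥0∞} (hm : Measurable F) : TT N F = ∫⁻ w, psi N w * F w := by
  classical
  have h1 : TT N F = ∑ ab : ZMod N × ZMod N, ∫⁻ z, phi z * GG (N := N) F ab z := by
    unfold TT
    simp_rw [Finset.mul_sum]
    exact lintegral_finsetSum _ fun ab _ => measurable_phi.mul (measurable_GG hm ab)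
  have h2 : ∫⁻ w, psi N w * F w = ∑ ab : ZMod N × ZMod N, ∫⁻ w,
      (if Valid ab then phi ((gmat ab)⁻¹ • w) else 0) * F w := by
    unfold psi
    simp_rw [Finset.sum_mul]
    refine lintegral_finsetSum _ fun ab _ => ?_
    refine Measurable.mul ?_ hm
    split_ifs
    · exact measurable_phi.comp (measurable_smul_SL _)
    · exact measurable_const
  rw [h1, h2]
  refine Finset.sum_congr rfl fun ab _ => ?_
  simp_rw [GG_gmat]
  by_cases h : Valid ab
  · simp only [if_pos h]
    have := lintegral_SL (gmat ab) (fun w => phi ((gmat ab)⁻¹ • w) * F w)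
      ((measurable_phi.comp (measurable_smul_SL _)).mul hm)
    rw [← this]
    simp
  · simp only [if_neg h, mul_zero, zero_mul]

/-- the number of units -/
noncomputable def nu (N : ℕ) [NeZero N] : ℝ≥0∞ := (Fintype.card (ZMod N)ˣ : ℝ≥0∞)

theorem nu_ne_top : nu N ≠ ∞ := ENNReal.natCast_ne_top _

theorem nu_ne_zero : nu N ≠ 0 := by
  unfold nu
  exact_mod_cast (Fintype.card_pos (α := (ZMod N)ˣ)).ne'

/-- the weight sums to `nu` over `Γ₀(N)` -/
theorem sum_psi (w : ℍ) : ∑' γ : Gamma0 N, psi N ((γ : SL(2, ℤ)) • w) = nu N := by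
  classical
  have h1 : ∀ ab : ZMod N × ZMod N, ∑' γ : Gamma0 N,
      (if Valid ab then phi ((gmat ab)⁻¹ • (γ : SL(2, ℤ)) • w) else 0) =
      ∑' h : SL(2, ℤ), (if Valid ab ∧ gmat ab * h ∈ Gamma0 N then (1 : ℝ≥0∞) else 0) *
        phi (h • w) := by
    intro ab
    by_cases hv : Valid ab
    · simp only [hv, true_and, if_true]
      have e1 := tsum_subtype ((Gamma0 N : Subgroup SL(2, ℤ)) : Set SL(2, ℤ))
        (fun γ : SL(2, ℤ) => phi ((gmat ab)⁻¹ • γ • w))
      refine Eq.trans e1 ?_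
      rw [← (Equiv.mulLeft (gmat ab)).tsum_eq]
      refine tsum_congr fun h => ?_
      simp only [Equiv.coe_mulLeft]
      by_cases hm : gmat ab * h ∈ Gamma0 N
      · rw [if_pos hm, Set.indicator_of_mem (show gmat ab * h ∈
          ((Gamma0 N : Subgroup SL(2, ℤ)) : Set SL(2, ℤ)) from hm), one_mul, mul_smul,
          inv_smul_smul]
      · rw [if_neg hm, Set.indicator_of_notMem (show gmat ab * h ∉
          ((Gamma0 N : Subgroup SL(2, ℤ)) : Set SL(2, ℤ)) from hm), zero_mul]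
    · simp only [hv, false_and, if_false, zero_mul, tsum_zero]
  unfold psi
  have h2 : ∑' γ : Gamma0 N, ∑ ab : ZMod N × ZMod N,
      (if Valid ab then phi ((gmat ab)⁻¹ • (γ : SL(2, ℤ)) • w) else 0) =
      ∑ ab : ZMod N × ZMod N, ∑' γ : Gamma0 N,
      (if Valid ab then phi ((gmat ab)⁻¹ • (γ : SL(2, ℤ)) • w) else 0) :=
    Summable.tsum_finsetSum fun _ _ => ENNReal.summable
  rw [h2, Finset.sum_congr rfl fun ab _ => h1 ab,
    ← Summable.tsum_finsetSum fun _ _ => ENNReal.summable]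
  simp_rw [← Finset.sum_mul, count]
  rw [ENNReal.tsum_mul_left, tsum_phi, mul_one]
  rfl

/-- integrals of invariant functions do not depend on the weight -/
theorem swap {F ψ₁ ψ₂ : ℍ → ℝ≥0∞} (hm : Measurable F) (hF : Inv N F) (h1 : Measurable ψ₁)
    (h2 : Measurable ψ₂) {c : ℝ≥0∞} (hc : c ≠ 0) (hc' : c ≠ ∞)
    (hs1 : ∀ w, ∑' γ : Gamma0 N, ψ₁ ((γ : SL(2, ℤ)) • w) = c)
    (hs2 : ∀ w, ∑' γ : Gamma0 N, ψ₂ ((γ : SL(2, ℤ)) • w) = c) :
    ∫⁻ w, ψ₁ w * F w = ∫⁻ w, ψ₂ w * F w := by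
  have key : (∫⁻ w, ψ₁ w * F w) * c = (∫⁻ w, ψ₂ w * F w) * c := by
    calc (∫⁻ w, ψ₁ w * F w) * c = ∫⁻ w, ψ₁ w * F w * c := by
          exact (lintegral_mul_const (μ := (volume : Measure ℍ)) (f := fun w => ψ₁ w * F w) c
            (h1.mul hm)).symm
      _ = ∫⁻ w, ∑' γ : Gamma0 N, ψ₁ w * F w * ψ₂ ((γ : SL(2, ℤ)) • w) := by
          refine lintegral_congr fun w => ?_
          rw [ENNReal.tsum_mul_left, hs2]
      _ = ∑' γ : Gamma0 N, ∫⁻ w, ψ₁ w * F w * ψ₂ ((γ : SL(2, ℤ)) • w) := by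
          rw [lintegral_tsum]
          intro γ
          exact ((h1.mul hm).mul (h2.comp (measurable_smul_SL _))).aemeasurable
      _ = ∑' γ : Gamma0 N, ∫⁻ w, ψ₁ (((γ⁻¹ : Gamma0 N) : SL(2, ℤ)) • w) * F w * ψ₂ w := by
          refine tsum_congr fun γ => ?_
          have := lintegral_SL (γ : SL(2, ℤ))
            (fun w => ψ₁ (((γ⁻¹ : Gamma0 N) : SL(2, ℤ)) • w) * F w * ψ₂ w)
            (((h1.comp (measurable_smul_SL _)).mul hm).mul h2)
          rw [← this]
          refine lintegral_congr fun w => ?_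
          rw [hF _ γ.2]
          congr 3
          rw [Subgroup.coe_inv, inv_smul_smul]
      _ = ∑' γ : Gamma0 N, ∫⁻ w, ψ₁ ((γ : SL(2, ℤ)) • w) * F w * ψ₂ w :=
          (Equiv.inv (Gamma0 N)).tsum_eq
            (fun γ : Gamma0 N => ∫⁻ w, ψ₁ ((γ : SL(2, ℤ)) • w) * F w * ψ₂ w)
      _ = ∫⁻ w, ∑' γ : Gamma0 N, ψ₁ ((γ : SL(2, ℤ)) • w) * F w * ψ₂ w := by
          rw [lintegral_tsum]
          intro γ
          exact (((h1.comp (measurable_smul_SL _)).mul hm).mul h2).aemeasurable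
      _ = ∫⁻ w, ψ₂ w * F w * c := by
          refine lintegral_congr fun w => ?_
          simp_rw [mul_assoc]
          rw [ENNReal.tsum_mul_right, hs1]
          ring
      _ = (∫⁻ w, ψ₂ w * F w) * c := by
          exact lintegral_mul_const (μ := (volume : Measure ℍ)) (f := fun w => ψ₂ w * F w) c
            (h2.mul hm)
  exact (ENNReal.mul_left_inj hc hc').1 key

/-- **Invariance of the mean value under an element which normalises `Γ₀(N)`.** -/
theorem TT_smul {F : ℍ → ℝ≥0∞} (hm : Measurable F) (hF : Inv N F) (W : GL (Fin 2) ℝ)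
    (e : Gamma0 N ≃ Gamma0 N)
    (he : ∀ (γ : Gamma0 N) (z : ℍ), W • ((e γ : SL(2, ℤ)) • z) = (γ : SL(2, ℤ)) • (W • z)) :
    TT N (fun z => F (W • z)) = TT N F := by
  have hWm : Measurable fun z : ℍ => W • z := (measurePreserving_smul W (volume : Measure ℍ)).measurable
  have hWm' : Measurable fun z : ℍ => W⁻¹ • z :=
    (measurePreserving_smul W⁻¹ (volume : Measure ℍ)).measurable
  rw [TT_eq hm, TT_eq (F := fun z => F (W • z)) (hm.comp hWm)]
  have h1 : ∫⁻ z, psi N z * F (W • z) = ∫⁻ w, psi N (W⁻¹ • w) * F w := by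
    have := (measurePreserving_smul W (volume : Measure ℍ)).lintegral_comp
      (f := fun w => psi N (W⁻¹ • w) * F w) ((measurable_psi.comp hWm').mul hm)
    rw [← this]
    simp
  rw [h1]
  refine swap hm hF (measurable_psi.comp hWm') measurable_psi nu_ne_zero nu_ne_top ?_ sum_psi
  intro w
  have h2 : ∀ γ : Gamma0 N, psi N (W⁻¹ • (γ : SL(2, ℤ)) • w) =
      psi N ((e γ : SL(2, ℤ)) • (W⁻¹ • w)) := by
    intro γ
    have := he γ (W⁻¹ • w)
    rw [smul_inv_smul] at this
    rw [← this, inv_smul_smul]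
  rw [tsum_congr h2, e.tsum_eq (fun γ : Gamma0 N => psi N ((γ : SL(2, ℤ)) • (W⁻¹ • w)))]
  exact sum_psi _

end Pool.Agent.Y722.RS
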