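import Pool.Agent.Y722.RS.Inv
import Pool.Agent.W165.RS.Strip

/-! Cusp forms of weight two: change of level, and the element of determinant `p` that normalises
`Γ₀(Np)`. -/

set_option autoImplicit false

namespace Pool.Agent.Y722.RS

open MeasureTheory Filter Topology UpperHalfPlane CongruenceSubgroup Complex
open scoped ENNReal MatrixGroups ModularForm Pointwise
open Pool.Agent.W97.TW (al al_GL slash_al zero_slash' holo_slash mkSL mkSL_coe mkSL_mem exists_mkSL
  mkSL_GL al_mul al_det)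
open Pool.Agent.W165.RS (ac ac_zero hasSum_f ee FF FF_eq one_mem0)

/-- cusp forms of weight two on `Γ₀(N)` -/
abbrev S2 (N : ℕ) : Type := CuspForm (Gamma0 N : Subgroup (GL (Fin 2) ℝ)) 2

variable {N : ℕ}

theorem isCusp_iff (N M : ℕ) [NeZero N] [NeZero M] {c : OnePoint ℝ}
    (hc : IsCusp c (Gamma0 M : Subgroup (GL (Fin 2) ℝ))) :
    IsCusp c (Gamma0 N : Subgroup (GL (Fin 2) ℝ)) := by
  rw [Subgroup.IsArithmetic.isCusp_iff_isCusp_SL2Z] at hc ⊢
  exact hc

theorem slash_mem (f : S2 N) {γ : SL(2, ℤ)} (h : γ ∈ Gamma0 N) :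
    (f : ℍ → ℂ) ∣[(2:ℤ)] (γ : GL (Fin 2) ℝ) = f :=
  SlashInvariantForm.slash_action_eqn f.toSlashInvariantForm _ ⟨γ, h, rfl⟩

/-- a form of level `N` as a form of level `M`, `N ∣ M` -/
noncomputable def restr [NeZero N] (M : ℕ) [NeZero M] (hNM : N ∣ M) (f : S2 N) : S2 M where
  toFun := f
  slash_action_eq' := by
    intro γ hγ
    obtain ⟨γ', hγ', rfl⟩ := hγ
    refine slash_mem f ?_
    obtain ⟨a, b, c, d, hdet, rfl⟩ := exists_mkSL γ'
    have h1 : (M : ℤ) ∣ c := (mkSL_mem a b c d hdet M).1 hγ'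
    exact (mkSL_mem a b c d hdet N).2 ((Int.natCast_dvd_natCast.2 hNM).trans h1)
  holo' := f.holo'
  zero_at_cusps' := fun hc => f.zero_at_cusps' (isCusp_iff N M hc)

theorem ac_restr [NeZero N] (M : ℕ) [NeZero M] (hNM : N ∣ M) (f : S2 N) (n : ℕ) :
    ac (restr M hNM f) n = ac f n := rfl

theorem restr_coe [NeZero N] (M : ℕ) [NeZero M] (hNM : N ∣ M) (f : S2 N) :
    (restr M hNM f : ℍ → ℂ) = f := rfl

theorem al_pos (p : ℕ) [NeZero p] : (0 : ℤ) < (p : ℤ) * 1 - 0 * 0 := by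
  have : 0 < p := NeZero.pos p
  simpa using this

/-- `p f(pz)` -/
noncomputable def upf [NeZero N] (p : ℕ) [NeZero p] (f : S2 N) : S2 (N * p) where
  toFun := (f : ℍ → ℂ) ∣[(2:ℤ)] al p 0 0 1 (al_pos p)
  slash_action_eq' := by
    intro γ hγ
    obtain ⟨γ', hγ', rfl⟩ := hγ
    obtain ⟨a, b, c, d, hdet, rfl⟩ := exists_mkSL γ'
    have hdvd : ((N * p : ℕ) : ℤ) ∣ c := (mkSL_mem a b c d hdet (N * p)).1 hγ'
    obtain ⟨c', rfl⟩ := hdvd
    have hdet' : a * d - ((p : ℤ) * b) * (N * c') = 1 := by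
      push_cast at hdet
      linear_combination hdet
    have hmul := al_mul (al_pos p) (al_pos p) (mkSL a b ((N * p : ℕ) * c') d hdet)
      (mkSL a (p * b) (N * c') d hdet') (by
        rw [mkSL_coe, mkSL_coe, Matrix.mul_fin_two, Matrix.mul_fin_two]
        ext i j
        fin_cases i <;> fin_cases j <;> simp <;> ring)
    change ((f : ℍ → ℂ) ∣[(2:ℤ)] al p 0 0 1 (al_pos p)) ∣[(2:ℤ)]
      ((mkSL a b ((N * p : ℕ) * c') d hdet : SL(2, ℤ)) : GL (Fin 2) ℝ) = _
    rw [← SlashAction.slash_mul, hmul, SlashAction.slash_mul,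
      slash_mem f ((mkSL_mem a (p * b) (N * c') d hdet' N).2 (dvd_mul_right _ _))]
  holo' := holo_slash f p 0 0 1 (al_pos p)
  zero_at_cusps' := fun hc => zero_slash' f p 0 0 1 (al_pos p) (isCusp_iff N (N * p) hc)

theorem upf_coe [NeZero N] (p : ℕ) [NeZero p] (f : S2 N) :
    (upf p f : ℍ → ℂ) = (f : ℍ → ℂ) ∣[(2:ℤ)] al p 0 0 1 (al_pos p) := rfl

theorem im_pos_mul (p : ℕ) [NeZero p] (z : ℍ) : 0 < ((p : ℂ) * (z : ℂ)).im := by
  rw [Complex.mul_im]
  simp only [Complex.natCast_re, Complex.natCast_im, zero_mul, add_zero]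
  have : (0 : ℝ) < p := by exact_mod_cast NeZero.pos p
  exact mul_pos this z.im_pos

theorem upf_apply [NeZero N] (p : ℕ) [NeZero p] (f : S2 N) (z : ℍ) :
    upf p f z = p * f (ofComplex ((p : ℂ) * z)) := by
  change ((f : ℍ → ℂ) ∣[(2:ℤ)] al p 0 0 1 (al_pos p)) z = _
  rw [slash_al]
  simp
  ring

theorem qp (z : ℍ) (n : ℕ) : Function.Periodic.qParam 1 (z : ℂ) ^ n =
    cexp (2 * Real.pi * Complex.I * n * z) := by
  unfold Function.Periodic.qParam
  rw [← Complex.exp_nat_mul]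
  congr 1
  push_cast
  ring

theorem hasSum_ac [NeZero N] (f : S2 N) (z : ℍ) :
    HasSum (fun n : ℕ => ac f n * cexp (2 * Real.pi * Complex.I * n * z)) (f z) := by
  have h := ModularForm.hasSum_qExpansion (Γ := (Gamma0 N : Subgroup (GL (Fin 2) ℝ))) (k := 2) f
    one_pos one_mem0 z
  refine h.congr_fun fun n => ?_
  rw [qp]
  rfl

theorem ac_unique [NeZero N] (f : S2 N) (c : ℕ → ℂ)
    (h : ∀ z : ℍ, HasSum (fun n : ℕ => c n * cexp (2 * Real.pi * Complex.I * n * z)) (f z))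
    (n : ℕ) : ac f n = c n := by
  have h1 := ModularFormClass.qExpansion_coeff_unique (Γ := (Gamma0 N : Subgroup (GL (Fin 2) ℝ)))
    (k := 2) (c := c) one_pos one_mem0 (f := f) (fun τ => by
      refine (h τ).congr_fun fun m => ?_
      rw [qp, smul_eq_mul]) n
  exact h1.symm

theorem ac_upf [NeZero N] (p : ℕ) [NeZero p] (f : S2 N) (n : ℕ) :
    ac (upf p f) n = if p ∣ n then p * ac f (n / p) else 0 := by
  refine ac_unique _ (fun n => if p ∣ n then p * ac f (n / p) else 0) (fun z => ?_) n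
  rw [upf_apply]
  have h1 := (hasSum_ac f (ofComplex ((p : ℂ) * z))).mul_left (p : ℂ)
  have hinj : Function.Injective (fun n : ℕ => p * n) := fun a b hab =>
    Nat.eq_of_mul_eq_mul_left (NeZero.pos p) hab
  refine (Function.Injective.hasSum_iff hinj ?_).1 ?_
  · intro m hm
    rw [if_neg, zero_mul]
    rintro ⟨n, rfl⟩
    exact hm ⟨n, rfl⟩
  · refine h1.congr_fun fun m => ?_
    simp only [Function.comp_apply]
    rw [if_pos (dvd_mul_right p m), Nat.mul_div_cancel_left _ (NeZero.pos p),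
      ofComplex_apply_of_im_pos (im_pos_mul p z), mul_assoc]
    congr 3
    push_cast
    ring

/-! ## the element `W` -/

/-- products of integral matrices -/
theorem al_al {a b c d a' b' c' d' x y z w x' y' z' w' : ℤ} (h : 0 < a * d - b * c)
    (h' : 0 < a' * d' - b' * c') (g : 0 < x * w - y * z) (g' : 0 < x' * w' - y' * z')
    (e : !![a, b; c, d] * !![a', b'; c', d'] = !![x, y; z, w] * !![x', y'; z', w']) :
    al a b c d h * al a' b' c' d' h' = al x y z w g * al x' y' z' w' g' := by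
  apply Units.ext
  rw [Units.val_mul, Units.val_mul, al_GL, al_GL, al_GL, al_GL]
  rw [Matrix.mul_fin_two, Matrix.mul_fin_two] at e ⊢
  have h00 := congrFun (congrFun e 0) 0
  have h01 := congrFun (congrFun e 0) 1
  have h10 := congrFun (congrFun e 1) 0
  have h11 := congrFun (congrFun e 1) 1
  simp at h00 h01 h10 h11
  ext i j
  fin_cases i <;> fin_cases j <;> simp
  · exact_mod_cast h00
  · exact_mod_cast h01
  · exact_mod_cast h10
  · exact_mod_cast h11

theorem mk_al (a b c d : ℤ) (h : a * d - b * c = 1) :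
    (mkSL a b c d h : GL (Fin 2) ℝ) = al a b c d (by rw [h]; exact one_pos) := by
  apply Units.ext
  rw [mkSL_GL, al_GL]

theorem slash_scalar (f : ℍ → ℂ) (p : ℕ) [NeZero p] (h : (0:ℤ) < (p:ℤ) * p - 0 * 0) :
    f ∣[(2:ℤ)] al p 0 0 p h = f := by
  funext z
  rw [slash_al]
  have hp : (p : ℂ) ≠ 0 := by exact_mod_cast NeZero.ne p
  have e1 : (((p : ℤ) : ℂ) * (z : ℂ) + ((0 : ℤ) : ℂ)) / (((0 : ℤ) : ℂ) * z + ((p : ℤ) : ℂ)) = z := by
    push_cast
    rw [zero_mul, zero_add, add_zero, mul_div_cancel_left₀ _ hp]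
  rw [e1, ofComplex_apply]
  push_cast
  field_simp
  ring_nf
  field_simp

section
variable [NeZero N] {p : ℕ} [NeZero p] {a b c d : ℤ} (hab : (p : ℤ) * a * d - N * b * c = 1)

include hab in
theorem W_pos : (0 : ℤ) < (p * a) * (p * d) - b * (N * p * c) := by
  have e : ((p : ℤ) * a) * (p * d) - b * (N * p * c) = p := by linear_combination (p : ℤ) * hab
  rw [e]
  exact_mod_cast NeZero.pos p

/-- the element of determinant `p` -/
noncomputable def W : GL (Fin 2) ℝ := al (p * a) b (N * p * c) (p * d) (W_pos hab)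

include hab in
theorem upf_W (f : S2 N) : (upf p f : ℍ → ℂ) ∣[(2:ℤ)] W hab = f := by
  have hp0 : (0:ℤ) < (p:ℤ) * p - 0 * 0 := by
    have : (0:ℤ) < p := by exact_mod_cast NeZero.pos p
    rw [mul_zero, sub_zero]
    exact mul_pos this this
  have hdet : ((p : ℤ) * a) * d - b * (N * c) = 1 := by linear_combination hab
  rw [upf_coe, ← SlashAction.slash_mul]
  have e1 : al p 0 0 1 (al_pos p) * W hab =
      (mkSL (p * a) b (N * c) d hdet : GL (Fin 2) ℝ) * al p 0 0 p hp0 := by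
    rw [mk_al]
    refine al_al _ _ _ _ ?_
    rw [Matrix.mul_fin_two, Matrix.mul_fin_two]
    ext i j
    fin_cases i <;> fin_cases j <;> simp <;> ring
  rw [e1, SlashAction.slash_mul, slash_mem f ((mkSL_mem _ _ _ _ hdet N).2 (dvd_mul_right _ _)),
    slash_scalar]

include hab in
theorem g_W (g : S2 N) : (g : ℍ → ℂ) ∣[(2:ℤ)] W hab = upf p g := by
  have hdet : a * (p * d) - b * (N * c) = 1 := by linear_combination hab
  have e1 : W hab = (mkSL a b (N * c) (p * d) hdet : GL (Fin 2) ℝ) * al p 0 0 1 (al_pos p) := by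
    rw [mk_al]
    apply Units.ext
    rw [Units.val_mul]
    unfold W
    rw [al_GL, al_GL, al_GL, Matrix.mul_fin_two]
    ext i j
    fin_cases i <;> fin_cases j <;> simp <;> ring
  rw [e1, SlashAction.slash_mul, slash_mem g ((mkSL_mem _ _ _ _ hdet N).2 (dvd_mul_right _ _)),
    upf_coe]

theorem FF_W {M : ℕ} [NeZero M] (h : S2 M) {M' : ℕ} [NeZero M'] (h' : S2 M')
    (e : (h : ℍ → ℂ) ∣[(2:ℤ)] W hab = h') (z : ℍ) : FF h (W hab • z) = FF h' z := by
  rw [FF_eq, FF_eq]
  congr 1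
  have h1 := UpperHalfPlane.petersson_slash 2 (h : ℍ → ℂ) (h : ℍ → ℂ) (W hab) z
  rw [e] at h1
  rw [h1]
  simp

end

end Pool.Agent.Y722.RS
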